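import Pool.Agent.H92.T.Minus

set_option autoImplicit false

/-! Many primes with `χ = -1` in the exceptional case. -/

namespace Pool.Agent.H92.T

open Finset Filter Topology
open Pool.Agent.H92.G (Chr)

theorem minus_primes : ∃ w : ℕ, 17 ≤ w ∧ ∀ s : ℕ, 3 ≤ s → ∀ (f : ℕ) (χ : ℕ → ℝ), Chr f χ → 0 < f → f ≤ s →
    ∑ r ∈ (Ioc (s ^ 16) (s ^ w)).filter (fun r => r.Prime ∧ χ r = 1), 1 / (r : ℝ) ≤ 1 / 4 →
    s ≤ ((Ioc (s ^ 16) (s ^ w)).filter (fun r => r.Prime ∧ χ r = -1)).card := by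
  classical
  obtain ⟨C, hC⟩ := Pool.Agent.Erdos456.Mert.mertens_inv
  obtain ⟨w, hw⟩ : ∃ w : ℕ, w = ⌈16 * Real.exp (2 * |C| + 1)⌉₊ + 17 := ⟨_, rfl⟩
  refine ⟨w, by omega, fun s hs f χ h hf hfs hsum => ?_⟩
  have hsr : (3 : ℝ) ≤ s := by exact_mod_cast hs
  have hs0 : (0 : ℝ) < s := by linarith
  have hls : 1 ≤ Real.log s := by
    rw [Real.le_log_iff_exp_le hs0]
    have := Real.exp_one_lt_d9
    linarith
  have hwr : 16 * Real.exp (2 * |C| + 1) ≤ w := by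
    have h1 : 16 * Real.exp (2 * |C| + 1) ≤ (⌈16 * Real.exp (2 * |C| + 1)⌉₊ : ℝ) := Nat.le_ceil _
    rw [hw]; push_cast; linarith
  have hw0 : (0 : ℝ) < w := lt_of_lt_of_le (by positivity) hwr
  have h16 : 3 ≤ s ^ 16 := hs.trans (Nat.le_self_pow (by norm_num) s)
  have h16w : s ^ 16 ≤ s ^ w := Nat.pow_le_pow_right (by omega) (by omega)
  have h1 := (abs_le.1 (hC (s ^ 16) h16)).2
  have h2 := (abs_le.1 (hC (s ^ w) (h16.trans h16w))).1
  have hC' : C ≤ |C| := le_abs_self C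
  have l1 : Real.log (Real.log ((s ^ 16 : ℕ) : ℝ)) = Real.log 16 + Real.log (Real.log s) := by
    push_cast
    rw [Real.log_pow, Real.log_mul (by norm_num) (by linarith)]
    norm_num
  have l2 : Real.log (Real.log ((s ^ w : ℕ) : ℝ)) = Real.log w + Real.log (Real.log s) := by
    push_cast
    rw [Real.log_pow, Real.log_mul hw0.ne' (by linarith)]
  rw [l1] at h1
  rw [l2] at h2
  have l3 : Real.log 16 + (2 * |C| + 1) ≤ Real.log w := by
    have h3 := Real.log_le_log (by positivity) hwr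
    rwa [Real.log_mul (by norm_num) (Real.exp_pos _).ne', Real.log_exp] at h3
  obtain ⟨I, hI⟩ : ∃ I : Finset ℕ, I = (Ioc (s ^ 16) (s ^ w)).filter (fun r => r.Prime) := ⟨_, rfl⟩
  have hsplit : ∑ p ∈ (Icc 1 (s ^ w)).filter Nat.Prime, (1 : ℝ) / p =
      ∑ p ∈ (Icc 1 (s ^ 16)).filter Nat.Prime, (1 : ℝ) / p + ∑ p ∈ I, (1 : ℝ) / p := by
    rw [hI, ← sum_union]
    · apply sum_congr _ (fun _ _ => rfl)
      ext p
      simp only [mem_union, mem_filter, mem_Icc, mem_Ioc]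
      constructor
      · rintro ⟨⟨h3, h4⟩, h5⟩
        rcases Nat.lt_or_ge (s ^ 16) p with h6 | h6
        · exact Or.inr ⟨⟨h6, h4⟩, h5⟩
        · exact Or.inl ⟨⟨h3, h6⟩, h5⟩
      · rintro (⟨⟨h3, h4⟩, h5⟩ | ⟨⟨h3, h4⟩, h5⟩)
        · exact ⟨⟨h3, h4.trans h16w⟩, h5⟩
        · exact ⟨⟨h5.one_lt.le, h4⟩, h5⟩
    · rw [Finset.disjoint_left]
      intro p hp hp'
      rw [mem_filter, mem_Icc] at hp
      rw [mem_filter, mem_Ioc] at hp'
      omega
  have hI1 : 1 ≤ ∑ p ∈ I, (1 : ℝ) / p := by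
    rw [hsplit] at h2
    linarith
  have hIs : ∑ p ∈ I, (1 : ℝ) / p = ∑ r ∈ (Ioc (s ^ 16) (s ^ w)).filter (fun r => r.Prime ∧ χ r = 1), 1 / (r : ℝ) +
      ∑ r ∈ (Ioc (s ^ 16) (s ^ w)).filter (fun r => r.Prime ∧ χ r = -1), 1 / (r : ℝ) := by
    rw [← sum_union]
    · apply sum_congr _ (fun _ _ => rfl)
      ext p
      rw [hI]
      simp only [mem_union, mem_filter, mem_Ioc]
      constructor
      · rintro ⟨⟨h3, h4⟩, h5⟩
        have h6 : p.Coprime f := by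
          rw [Nat.Prime.coprime_iff_not_dvd h5]
          intro h7
          have h8 := Nat.le_of_dvd hf h7
          have h9 : s ≤ s ^ 16 := Nat.le_self_pow (by norm_num) s
          omega
        rcases h.val p h6 with h7 | h7
        · exact Or.inl ⟨⟨h3, h4⟩, h5, h7⟩
        · exact Or.inr ⟨⟨h3, h4⟩, h5, h7⟩
      · rintro (⟨h3, h4, _⟩ | ⟨h3, h4, _⟩)
        · exact ⟨h3, h4⟩
        · exact ⟨h3, h4⟩
    · rw [Finset.disjoint_left]
      intro p hp hp'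
      rw [mem_filter] at hp hp'
      have h3 := hp.2.2
      have h4 := hp'.2.2
      rw [h3] at h4
      norm_num at h4
  obtain ⟨F, hF⟩ : ∃ F : Finset ℕ, F = (Ioc (s ^ 16) (s ^ w)).filter (fun r => r.Prime ∧ χ r = -1) := ⟨_, rfl⟩
  rw [← hF] at hIs ⊢
  have h3 : ∑ r ∈ F, 1 / (r : ℝ) ≤ F.card * (1 / (s : ℝ) ^ 16) := by
    rw [← nsmul_eq_mul]
    apply sum_le_card_nsmul
    intro r hr
    rw [hF, mem_filter, mem_Ioc] at hr
    apply one_div_le_one_div_of_le (by positivity)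
    exact_mod_cast hr.1.1.le
  have h4 : (3 / 4 : ℝ) * (s : ℝ) ^ 16 ≤ F.card := by
    have h5 : (3 / 4 : ℝ) ≤ F.card * (1 / (s : ℝ) ^ 16) := by linarith
    rw [mul_one_div, le_div_iff₀ (by positivity)] at h5
    exact h5
  have h5 : (s : ℝ) ≤ 3 / 4 * (s : ℝ) ^ 16 := by
    have h6 : (s : ℝ) ^ 2 ≤ (s : ℝ) ^ 16 := pow_le_pow_right₀ (by linarith) (by norm_num)
    nlinarith
  exact_mod_cast h5.trans h4

end Pool.Agent.H92.T
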