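import Pool.Agent.H92.G.Tr

set_option autoImplicit false

/-! Two substitutions. -/

namespace Pool.Agent.H92.T

open Finset Filter
open Pool.Agent.H262R2.UM
open Pool.Agent.H92.G (Chr sub_surj exists_root)

/-- restriction to a class modulo `D` -/
theorem subst_D {K : ℕ} {a b : Fin K → ℕ} (hadm : Adm a b) (hab : ∀ i, 0 < a i ∧ b i ≤ a i)
    (hinj : Function.Injective (fun i => (a i, b i))) (s : Finset ℕ) (hs : ∀ p ∈ s, p.Prime) (D : ℕ) (hD : 0 < D)
    (hDs : ∀ p : ℕ, p.Prime → (p ∣ D ↔ p ∈ s)) :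
    ∃ ν : ℕ, ν < D ∧ Adm (fun i => a i * D) (fun i => a i * ν + b i) ∧
      (∀ i, 0 < a i * D ∧ a i * ν + b i ≤ a i * D) ∧
      Function.Injective (fun i => (a i * D, a i * ν + b i)) := by
  classical
  obtain ⟨ν0, hν0⟩ := crt_class hadm s hs
  have hc : ∀ i, ∀ p : ℕ, p.Prime → p ∣ D → ¬ p ∣ a i * (ν0 % D) + b i := by
    intro i p hp hpD hd
    have h1 : a i * (ν0 % D) + b i ≡ a i * ν0 + b i [MOD p] :=
      (((Nat.mod_modEq ν0 D).of_dvd hpD).mul_left (a i)).add_right (b i)
    have h2 : p ∣ a i * ν0 + b i := (h1.dvd_iff dvd_rfl).1 hd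
    have h3 : p ∣ ∏ q ∈ s, q := dvd_prod_of_mem (fun q => q) ((hDs p hp).1 hpD)
    have h4 := Nat.dvd_gcd h2 h3
    rw [hν0 i] at h4
    exact hp.one_lt.ne' (Nat.dvd_one.1 h4)
  have hνD : ν0 % D < D := Nat.mod_lt _ hD
  refine ⟨ν0 % D, hνD, ?_, ?_, ?_⟩
  · intro p hp
    by_cases hpD : p ∣ D
    · refine ⟨0, fun i => ?_⟩
      simp only [mul_zero, zero_add]
      exact hc i p hp hpD
    · obtain ⟨n', hn'⟩ := hadm p hp
      have hDp : D.Coprime p := by
        rw [Nat.coprime_comm, Nat.Prime.coprime_iff_not_dvd hp]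
        exact hpD
      obtain ⟨n, _, hn⟩ := sub_surj (p := p) (r := D) (s := ν0 % D) (c' := n' % p) hp.pos hDp (Nat.mod_lt _ hp.pos)
      refine ⟨n, fun i hd => hn' i ?_⟩
      have h1 : a i * D * n + (a i * (ν0 % D) + b i) = a i * (ν0 % D + D * n) + b i := by ring
      rw [h1] at hd
      have h2 : ν0 % D + D * n ≡ n' [MOD p] := by
        unfold Nat.ModEq
        rw [hn]
      have h3 : a i * (ν0 % D + D * n) + b i ≡ a i * n' + b i [MOD p] := (h2.mul_left _).add_right _
      exact (h3.dvd_iff dvd_rfl).1 hd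
  · intro i
    refine ⟨Nat.mul_pos (hab i).1 hD, ?_⟩
    have h1 : a i * (ν0 % D + 1) ≤ a i * D := Nat.mul_le_mul_left _ hνD
    have h2 : a i * (ν0 % D + 1) = a i * (ν0 % D) + a i := by ring
    have := (hab i).2
    omega
  · intro i j hij
    apply hinj
    simp only [Prod.mk.injEq] at hij ⊢
    have h1 : a i = a j := Nat.eq_of_mul_eq_mul_right hD hij.1
    refine ⟨h1, ?_⟩
    have h2 := hij.2
    rw [h1] at h2
    omega

/-- from `χ = 1` to `χ = -1` -/
theorem to_minus {K M f : ℕ} {χ : ℕ → ℝ} (h : Chr f χ) {a b : Fin K → ℕ} (hadm : Adm a b)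
    (hab : ∀ i, 0 < a i ∧ b i ≤ a i) (hinj : Function.Injective (fun i => (a i, b i))) (haM : ∀ i, a i ≤ M)
    (hf : ∀ i, f ∣ a i ∧ χ (b i) = 1) (p : Fin K → ℕ) (hpi : Function.Injective p)
    (hp : ∀ i, (p i).Prime ∧ M * M < p i ∧ χ (p i) = -1) :
    ∃ (ν P : ℕ) (a' b' : Fin K → ℕ), P = ∏ i, p i ∧ ν < P ∧ Adm a' b' ∧ (∀ i, 0 < a' i ∧ b' i ≤ a' i) ∧
      Function.Injective (fun i => (a' i, b' i)) ∧ (∀ i, a' i ≤ a i * P) ∧ (∀ i, f ∣ a' i ∧ χ (b' i) = -1) ∧
      ∀ i n, a i * (ν + P * n) + b i = p i * (a' i * n + b' i) := by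
  classical
  obtain ⟨P, hP⟩ : ∃ P : ℕ, P = ∏ i, p i := ⟨_, rfl⟩
  have hPpos : 0 < P := by rw [hP]; exact prod_pos fun i _ => (hp i).1.pos
  have hpM : ∀ i, M < p i := by
    intro i
    have h1 := (hp i).2.1
    have h2 : M ≤ M * M := Nat.le_mul_self M
    omega
  have hpa : ∀ i j, ¬ p i ∣ a j := by
    intro i j hd
    have h1 := Nat.le_of_dvd (hab j).1 hd
    have h2 := hpM i
    have h3 := haM j
    omega
  have hco : ∀ i j, i ≠ j → (p i).Coprime (p j) := by
    intro i j hij
    rw [Nat.coprime_primes (hp i).1 (hp j).1]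
    exact fun h1 => hij (hpi h1)
  -- the roots
  have hroot : ∀ i, ∃ n, p i ∣ a i * n + b i := by
    intro i
    apply exists_root (hp i).1.pos
    rw [Nat.coprime_comm, Nat.Prime.coprime_iff_not_dvd (hp i).1]
    exact hpa i i
  choose r hr using hroot
  obtain ⟨k, hk⟩ := Nat.chineseRemainderOfFinset r p univ (fun i _ => (hp i).1.ne_zero) (by
    intro i _ j _ hij
    exact hco i j hij)
  obtain ⟨ν, hν⟩ : ∃ ν : ℕ, ν = k % P := ⟨_, rfl⟩
  have hνP : ν < P := by rw [hν]; exact Nat.mod_lt _ hPpos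
  have hpP : ∀ i, p i ∣ P := fun i => by rw [hP]; exact dvd_prod_of_mem p (mem_univ i)
  have hνr : ∀ i, p i ∣ a i * ν + b i := by
    intro i
    have h1 : ν ≡ r i [MOD p i] := by
      rw [hν]
      exact ((Nat.mod_modEq k P).of_dvd (hpP i)).trans (hk i (mem_univ i))
    have h2 : a i * ν + b i ≡ a i * r i + b i [MOD p i] := (h1.mul_left _).add_right _
    exact (h2.dvd_iff dvd_rfl).2 (hr i)
  choose b' hb' using hνr
  have hPi : ∀ i, ∃ Q, P = p i * Q := fun i => hpP i
  choose Q hQ using hPi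
  have hQpos : ∀ i, 0 < Q i := by
    intro i
    rcases Nat.eq_zero_or_pos (Q i) with h1 | h1
    · have := hQ i
      rw [h1, mul_zero] at this
      omega
    · exact h1
  have hQe : ∀ i, Q i = ∏ j ∈ univ.erase i, p j := by
    intro i
    have h1 : P = p i * ∏ j ∈ univ.erase i, p j := by
      rw [hP, mul_prod_erase univ p (mem_univ i)]
    rw [hQ i] at h1
    exact Nat.eq_of_mul_eq_mul_left (hp i).1.pos h1
  have hQi : ∀ i, ¬ p i ∣ Q i := by
    intro i hd
    rw [hQe i] at hd
    obtain ⟨j, hj, hd'⟩ := (Prime.dvd_finsetProd_iff (hp i).1.prime _).1 hd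
    have h1 := (Nat.prime_dvd_prime_iff_eq (hp i).1 (hp j).1).1 hd'
    exact (mem_erase.1 hj).1 (hpi h1).symm
  have hQj : ∀ i j, i ≠ j → p i ∣ Q j := by
    intro i j hij
    rw [hQe j]
    exact dvd_prod_of_mem p (mem_erase.2 ⟨hij, mem_univ i⟩)
  have hid : ∀ i n, a i * (ν + P * n) + b i = p i * (a i * Q i * n + b' i) := by
    intro i n
    have h1 : a i * (ν + P * n) + b i = (a i * ν + b i) + a i * P * n := by ring
    rw [h1, hb' i, hQ i]
    ring
  have hcross : ∀ i j, i ≠ j → ¬ p i ∣ a j * ν + b j := by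
    intro i j hij hd
    have h1 : p i ∣ a i * ν + b i := by rw [hb' i]; exact dvd_mul_right _ _
    have h2 := nonprop hadm (fun i => (hab i).1) hinj hij
    have h3 : ((p i : ℕ) : ℤ) ∣ (a i : ℤ) * b j - a j * b i := by
      have e : (a i : ℤ) * b j - a j * b i = a i * ((a j * ν + b j : ℕ) : ℤ) - a j * ((a i * ν + b i : ℕ) : ℤ) := by
        push_cast; ring
      rw [e]
      exact dvd_sub ((Int.natCast_dvd_natCast.2 hd).mul_left _) ((Int.natCast_dvd_natCast.2 h1).mul_left _)
    have h4 := Int.natAbs_pos.2 h2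
    have h5 : p i ≤ ((a i : ℤ) * b j - a j * b i).natAbs := by
      apply Nat.le_of_dvd h4
      rw [← Int.natCast_dvd]
      exact h3
    have h6 : ((a i : ℤ) * b j - a j * b i).natAbs ≤ M * M := by
      have h7 : (a i * b j : ℕ) ≤ M * M := Nat.mul_le_mul (haM i) ((hab j).2.trans (haM j))
      have h8 : (a j * b i : ℕ) ≤ M * M := Nat.mul_le_mul (haM j) ((hab i).2.trans (haM i))
      zify at h7 h8 ⊢
      rw [abs_le]
      have h9 : (0 : ℤ) ≤ (a i : ℤ) * b j := by positivity
      have h10 : (0 : ℤ) ≤ (a j : ℤ) * b i := by positivity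
      constructor <;> linarith
    have := (hp i).2.1
    omega
  refine ⟨ν, P, fun i => a i * Q i, b', hP, hνP, ?_, ?_, ?_, ?_, ?_, hid⟩
  · intro q hq
    by_cases hqP : q ∣ P
    · have h1 : ∃ i, q = p i := by
        rw [hP] at hqP
        obtain ⟨j, _, hd⟩ := (Prime.dvd_finsetProd_iff hq.prime _).1 hqP
        exact ⟨j, (Nat.prime_dvd_prime_iff_eq hq (hp j).1).1 hd⟩
      obtain ⟨i, rfl⟩ := h1
      have hothers : ∀ n j, j ≠ i → ¬ p i ∣ a j * Q j * n + b' j := by
        intro n j hj hd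
        have h2 : p i ∣ a j * Q j * n := ((hQj i j hj.symm).mul_left (a j)).mul_right n
        have h3 : p i ∣ b' j := (Nat.dvd_add_right h2).1 hd
        apply hcross i j hj.symm
        rw [hb' j]
        exact h3.mul_left _
      by_cases hbi : p i ∣ b' i
      · refine ⟨1, fun j => ?_⟩
        by_cases hj : j = i
        · subst hj
          intro hd
          simp only [mul_one] at hd
          have h2 : p j ∣ a j * Q j := (Nat.dvd_add_left hbi).1 hd
          rcases (hp j).1.dvd_mul.1 h2 with h3 | h3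
          · exact hpa j j h3
          · exact hQi j h3
        · exact hothers 1 j hj
      · refine ⟨0, fun j => ?_⟩
        by_cases hj : j = i
        · subst hj
          simpa using hbi
        · exact hothers 0 j hj
    · obtain ⟨n', hn'⟩ := hadm q hq
      have hPq : P.Coprime q := by
        rw [Nat.coprime_comm, Nat.Prime.coprime_iff_not_dvd hq]
        exact hqP
      obtain ⟨n, _, hn⟩ := sub_surj (p := q) (r := P) (s := ν) (c' := n' % q) hq.pos hPq (Nat.mod_lt _ hq.pos)
      refine ⟨n, fun i hd => hn' i ?_⟩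
      have h2 : ν + P * n ≡ n' [MOD q] := by
        unfold Nat.ModEq
        rw [hn]
      have h3 : a i * (ν + P * n) + b i ≡ a i * n' + b i [MOD q] := (h2.mul_left _).add_right _
      rw [← h3.dvd_iff dvd_rfl, hid i n]
      exact hd.mul_left _
  · intro i
    refine ⟨Nat.mul_pos (hab i).1 (hQpos i), ?_⟩
    have h1 : p i * b' i ≤ p i * (a i * Q i) := by
      rw [← hb' i]
      have h2 : a i * (ν + 1) ≤ a i * P := Nat.mul_le_mul_left _ hνP
      have h3 : a i * (ν + 1) = a i * ν + a i := by ring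
      have h4 : p i * (a i * Q i) = a i * P := by rw [hQ i]; ring
      have := (hab i).2
      omega
    exact Nat.le_of_mul_le_mul_left h1 (hp i).1.pos
  · intro i j hij
    by_contra hne
    simp only [Prod.mk.injEq] at hij
    have h1 : a i * P * p j = a j * P * p i := by
      have e1 : a i * P = p i * (a i * Q i) := by rw [hQ i]; ring
      have e2 : a j * P = p j * (a j * Q j) := by rw [hQ j]; ring
      rw [e1, e2, hij.1]
      ring
    have h2 : a i * p j = a j * p i := by
      have e1 : P * (a i * p j) = P * (a j * p i) := by linarith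
      exact Nat.eq_of_mul_eq_mul_left hPpos e1
    have h3 : p j ∣ a j * p i := by rw [← h2]; exact dvd_mul_left _ _
    rcases (hp j).1.dvd_mul.1 h3 with h4 | h4
    · exact hpa j j h4
    · have h5 := (Nat.prime_dvd_prime_iff_eq (hp j).1 (hp i).1).1 h4
      exact hne (hpi h5).symm
  · intro i
    apply Nat.mul_le_mul_left
    rw [hQ i]
    exact Nat.le_mul_of_pos_left _ (hp i).1.pos
  · intro i
    refine ⟨(hf i).1.mul_right _, ?_⟩
    have h1 : χ (p i * b' i) = 1 := by
      rw [← hb' i, ← (hf i).2]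
      apply h.per
      have h3 : a i * ν ≡ 0 [MOD f] := Nat.modEq_zero_iff_dvd.2 ((hf i).1.mul_right ν)
      have := h3.add_right (b i)
      rwa [zero_add] at this
    rw [h.mul, (hp i).2.2] at h1
    linarith

end Pool.Agent.H92.T
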