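import Pool.Agent.H92.T.Good
import Pool.Agent.H92.T.MPr
import Pool.Agent.H92.T.Subst
import Pool.Agent.H92.G.MainU

set_option autoImplicit false

/-! Many primes, or many products of two primes, for every system. -/

namespace Pool.Agent.H92.T

open Finset Filter Topology
open Pool.Agent.H378R2 Pool.Agent.H262R3.Lk Pool.Agent.H262R2.UM Pool.Agent.H262R2.UP
open Pool.Agent.H92.G (Chr lowX pigeon chr_of)

/-- a product of two primes -/
def Semi (n : ℕ) : Prop := ∃ p q : ℕ, p.Prime ∧ q.Prime ∧ n = p * q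

/-- a sub-family of a set of numbers -/
theorem sub_nat {k : ℕ} (F : Finset ℕ) (h : k ≤ F.card) : ∃ p : Fin k → ℕ, Function.Injective p ∧ ∀ j, p j ∈ F := by
  obtain ⟨F', hF', hc⟩ := Finset.exists_subset_card_eq h
  exact ⟨fun j => F'.orderEmbOfFin hc j, fun x y hxy => (F'.orderEmbOfFin hc).injective hxy,
    fun j => hF' (F'.orderEmbOfFin_mem hc j)⟩

theorem card_emb {k K : ℕ} {e : Fin k → Fin K} (he : Function.Injective e) (P : Fin K → Prop) [DecidablePred P] :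
    #((univ : Finset (Fin k)).filter (fun j => P (e j))) ≤ #((univ : Finset (Fin K)).filter P) := by
  classical
  have h1 : ((univ : Finset (Fin k)).filter (fun j => P (e j))).image e ⊆ (univ : Finset (Fin K)).filter P := by
    intro i hi
    rw [mem_image] at hi
    obtain ⟨j, hj, rfl⟩ := hi
    rw [mem_filter] at hj ⊢
    exact ⟨mem_univ _, hj.2⟩
  have h2 := card_le_card h1
  rwa [card_image_of_injective _ he] at h2

theorem adm_sub {k K : ℕ} {a b : Fin K → ℕ} (h : Adm a b) (e : Fin k → Fin K) :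
    Adm (fun j => a (e j)) (fun j => b (e j)) := by
  intro p hp
  obtain ⟨n, hn⟩ := h p hp
  exact ⟨n, fun j => hn (e j)⟩

/-- a bound of the form needed below -/
theorem bnd8 {n s A : ℕ} (hs : 9 ≤ s) (h : (n : ℝ) ≤ 8 * (s : ℝ) ^ A) : n + 1 ≤ s ^ (A + 1) := by
  have h1 : n ≤ 8 * s ^ A := by exact_mod_cast h
  have h2 : 1 ≤ s ^ A := Nat.one_le_pow _ _ (by omega)
  calc n + 1 ≤ 9 * s ^ A := by omega
    _ ≤ s * s ^ A := Nat.mul_le_mul_right _ hs
    _ = s ^ (A + 1) := by ring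


/-- the case of many good forms -/
theorem many_good {m K2 A2 M2 : ℕ} {c1 δ : ℝ}
    (hgood : ∀ M : ℕ, M2 ≤ M →
      ∀ (a b : Fin K2 → ℕ) (T : Finset ℕ), Adm a b → (∀ i, 0 < a i ∧ b i ≤ a i) →
      Function.Injective (fun i => (a i, b i)) → (∀ i, a i ≤ M) → (∀ p ∈ T, p.Prime) → #T ≤ K2 → (∀ p ∈ T, K2 ≤ p) →
      (∀ i, ∀ χ : DirichletCharacter ℂ (a i * WT M T), χ ≠ 1 → ∀ σ : ℝ, 0 < σ →
        σ * Real.log ((M ^ 32 : ℕ) : ℝ) ≤ δ → c1 ≤ ‖Lj (M ^ 32) χ 0 σ‖) →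
      ∃ n : ℕ, (n : ℝ) ≤ 8 * (M : ℝ) ^ A2 ∧
        m ≤ #((univ : Finset (Fin K2)).filter (fun i => (a i * n + b i).Prime)))
    {K M' z : ℕ} (hM : M2 ≤ M') (hM1 : 17 ≤ M') (hz : z = M' ^ 32)
    (huniq : ∀ f1 f2 : ℕ, LOW.Exc z δ f1 → LOW.Exc z δ f2 → f1 = f2)
    (hgoodL : ∀ q : ℕ, 1 ≤ q → q ^ 16 ≤ z → (∀ f, LOW.Exc z δ f → ¬ f ∣ q) →
      ∀ χ : DirichletCharacter ℂ q, χ ≠ 1 → ∀ σ : ℝ, 0 < σ → σ * Real.log z ≤ δ → c1 ≤ ‖Lj z χ 0 σ‖)
    {a b : Fin K → ℕ} (hadm : Adm a b) (hab : ∀ i, 0 < a i ∧ b i ≤ a i)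
    (hinj : Function.Injective (fun i => (a i, b i))) (haM : ∀ i, a i ≤ M')
    (hD : ∀ i, ∀ p : ℕ, p.Prime → p < K2 → p ^ 3 ∣ a i)
    (I : Finset (Fin K)) (hI : K2 ≤ #I) (hI' : ∀ i ∈ I, ∀ f, LOW.Exc z δ f → ¬ f ∣ a i) :
    ∃ n : ℕ, (n : ℝ) ≤ 8 * (M' : ℝ) ^ A2 ∧
      m ≤ #((univ : Finset (Fin K)).filter (fun i => (a i * n + b i).Prime)) := by
  classical
  obtain ⟨e, he, heI⟩ := sub_emb I hI
  obtain ⟨T, hTp, hTc, hTK, hT⟩ : ∃ T : Finset ℕ, (∀ p ∈ T, p.Prime) ∧ #T ≤ K2 ∧ (∀ p ∈ T, K2 ≤ p) ∧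
      ∀ j : Fin K2, ∀ f, LOW.Exc z δ f → ¬ f ∣ a (e j) * WT M' T := by
    by_cases hE : ∃ f, LOW.Exc z δ f
    · obtain ⟨f, hf⟩ := hE
      have hf1 : 1 < f := hf.1
      obtain ⟨ψ, hψp, hψ2, _⟩ := hf.2.2
      obtain ⟨hq1, hq2⟩ := h_qs f ψ (by omega) hψp hψ2
      have hp : ∀ j : Fin K2, ∃ p : ℕ, p.Prime ∧ (a (e j)).factorization p < f.factorization p ∧ K2 ≤ p := by
        intro j
        have h1 := hI' (e j) (heI j) f hf
        rw [← Nat.factorization_prime_le_iff_dvd (by omega) (hab (e j)).1.ne'] at h1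
        push Not at h1
        obtain ⟨p, hp, hlt⟩ := h1
        refine ⟨p, hp, hlt, ?_⟩
        by_contra hcon
        push Not at hcon
        have h2 : 3 ≤ (a (e j)).factorization p :=
          (hp.pow_dvd_iff_le_factorization (hab (e j)).1.ne').1 (hD (e j) p hp hcon)
        have h3 : p ^ 4 ∣ f := (hp.pow_dvd_iff_le_factorization (by omega)).2 (by omega)
        by_cases hp2 : p = 2
        · subst hp2
          exact hq2 (by simpa using h3)
        · exact hq1 p hp hp2 ((pow_dvd_pow p (by norm_num)).trans h3)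
      choose p hp hlt hpK using hp
      refine ⟨univ.image p, ?_, ?_, ?_, ?_⟩
      · intro q hq
        rw [mem_image] at hq
        obtain ⟨j, _, rfl⟩ := hq
        exact hp j
      · exact card_image_le.trans (by simp)
      · intro q hq
        rw [mem_image] at hq
        obtain ⟨j, _, rfl⟩ := hq
        exact hpK j
      · intro j f' hf'
        rw [huniq f' f hf' hf]
        exact not_dvd_of_fact (hab (e j)).1.ne' (mem_image_of_mem p (mem_univ j)) (hp j) (hlt j)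
    · exact ⟨∅, by simp, by simp, by simp, fun j f hf => absurd ⟨f, hf⟩ hE⟩
  obtain ⟨n, hn1, hn2⟩ := hgood M' hM (fun j => a (e j)) (fun j => b (e j)) T (adm_sub hadm e)
    (fun j => hab (e j)) (fun x y hxy => he (hinj hxy)) (fun j => haM (e j)) hTp hTc hTK (by
      intro j χ hχ σ hσ hσL
      rw [← hz] at hσL ⊢
      have hWpos := WT_pos M' T
      have hWM := WT_le M' (by omega) T
      refine hgoodL _ (Nat.mul_pos (hab (e j)).1 hWpos) ?_ (hT j) χ hχ σ hσ hσL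
      calc (a (e j) * WT M' T) ^ 16 ≤ (M' * M') ^ 16 := Nat.pow_le_pow_left (Nat.mul_le_mul (haM (e j)) hWM) 16
        _ = z := by rw [hz]; ring)
  exact ⟨n, hn1, hn2.trans (card_emb he (fun i => (a i * n + b i).Prime))⟩

open Classical in
/-- the exceptional case -/
theorem many_exc {m K1 E u A1 M1 w g1 V K : ℕ} {ϑ1 : ℝ} (hE : 1 ≤ E)
    (hminus : ∀ M : ℕ, M1 ≤ M → ∀ (f : ℕ) (χ : ℕ → ℝ), Chr f χ → ∀ a b : Fin K1 → ℕ, Adm a b →
      (∀ i, 0 < a i ∧ b i ≤ a i) →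
      Function.Injective (fun i => (a i, b i)) → (∀ i, a i ≤ M) → (∀ i, f ∣ a i ∧ χ (b i) = -1) →
      ∑ r ∈ (Ioc (M ^ (16 * E)) (M ^ (50 * u * E))).filter (fun r => r.Prime ∧ χ r = 1), 1 / (r : ℝ) ≤ ϑ1 →
      ∃ n : ℕ, (n : ℝ) ≤ 8 * (M : ℝ) ^ A1 ∧
        m ≤ #((univ : Finset (Fin K1)).filter (fun i => (a i * n + b i).Prime)))
    (hmp : ∀ s : ℕ, 3 ≤ s → ∀ (f : ℕ) (χ : ℕ → ℝ), Chr f χ → 0 < f → f ≤ s →
      ∑ r ∈ (Ioc (s ^ 16) (s ^ w)).filter (fun r => r.Prime ∧ χ r = 1), 1 / (r : ℝ) ≤ 1 / 4 →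
      s ≤ ((Ioc (s ^ 16) (s ^ w)).filter (fun r => r.Prime ∧ χ r = -1)).card)
    (hg1 : g1 = w * K1 + 2) (hwV : w ≤ V) (hEV : g1 * (50 * u * E) ≤ V)
    {s f : ℕ} {χ : ℕ → ℝ} (hχ : Chr f χ) (hf0 : 0 < f) (hfs : f ≤ s) (hs1 : M1 ≤ s) (hs17 : 17 ≤ s) (hK1s : K1 ≤ s)
    (hfilt : ∀ x y : ℕ, 16 ≤ x → y ≤ V →
      ∑ r ∈ (Ioc (s ^ x) (s ^ y)).filter (fun r => r.Prime ∧ χ r = 1), 1 / (r : ℝ) ≤ min (1 / 4) ϑ1)
    {a b : Fin K → ℕ} (hadm : Adm a b) (hab : ∀ i, 0 < a i ∧ b i ≤ a i)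
    (hinj : Function.Injective (fun i => (a i, b i))) (has : ∀ i, a i ≤ s)
    (I : Finset (Fin K)) (hI : 2 * K1 ≤ #I) (hIf : ∀ i ∈ I, f ∣ a i) :
    ∃ n : ℕ, n + 1 ≤ s ^ (g1 * (A1 + 1) + w * K1 + A1 + 1) ∧
      (m ≤ #((univ : Finset (Fin K)).filter (fun i => (a i * n + b i).Prime)) ∨
        m ≤ #((univ : Finset (Fin K)).filter (fun i => Semi (a i * n + b i)))) := by
  have hEV' : 50 * u * E ≤ V := by
    have h1 : 1 * (50 * u * E) ≤ g1 * (50 * u * E) := Nat.mul_le_mul_right _ (by omega)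
    omega
  have hsplit : I.filter (fun i => χ (b i) = 1) ∪ I.filter (fun i => χ (b i) = -1) = I := by
    ext i
    rw [mem_union, mem_filter, mem_filter]
    constructor
    · rintro (h | h)
      · exact h.1
      · exact h.1
    · intro hi
      have hbf : (b i).Coprime f := Nat.Coprime.coprime_dvd_right (hIf i hi) (adm_coprime hadm i)
      rcases hχ.val (b i) hbf with h | h
      · exact Or.inl ⟨hi, h⟩
      · exact Or.inr ⟨hi, h⟩
  have hcard := card_union_le (I.filter (fun i => χ (b i) = 1)) (I.filter (fun i => χ (b i) = -1))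
  rw [hsplit] at hcard
  rcases Nat.lt_or_ge (#(I.filter (fun i => χ (b i) = 1))) K1 with hlt | hge
  · -- many forms with `χ = -1`
    have h1 : K1 ≤ #(I.filter (fun i => χ (b i) = -1)) := by omega
    obtain ⟨e, he, heI⟩ := sub_emb _ h1
    obtain ⟨n, hn1, hn2⟩ := hminus s hs1 f χ hχ (fun j => a (e j)) (fun j => b (e j)) (adm_sub hadm e)
      (fun j => hab (e j)) (fun x y hxy => he (hinj hxy)) (fun j => has (e j)) (by
        intro j
        have h2 := mem_filter.1 (heI j)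
        exact ⟨hIf _ h2.1, h2.2⟩) ((hfilt (16 * E) (50 * u * E) (by omega) hEV').trans (min_le_right _ _))
    refine ⟨n, ?_, Or.inl (hn2.trans (card_emb he (fun i => (a i * n + b i).Prime)))⟩
    exact (bnd8 (by omega) hn1).trans (Nat.pow_le_pow_right (by omega) (by omega))
  · -- many forms with `χ = 1`
    obtain ⟨e, he, heI⟩ := sub_emb _ hge
    have hmany := hmp s (by omega) f χ hχ hf0 hfs ((hfilt 16 w le_rfl hwV).trans (min_le_left _ _))
    obtain ⟨p, hpi, hp⟩ := sub_nat _ (hK1s.trans hmany)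
    have hp' : ∀ j, (p j).Prime ∧ s ^ 16 < p j ∧ p j ≤ s ^ w ∧ χ (p j) = -1 := by
      intro j
      have h2 := mem_filter.1 (hp j)
      exact ⟨h2.2.1, (mem_Ioc.1 h2.1).1, (mem_Ioc.1 h2.1).2, h2.2.2⟩
    have hss : s * s ≤ s ^ 16 := by
      calc s * s = s ^ 2 := by ring
        _ ≤ s ^ 16 := Nat.pow_le_pow_right (by omega) (by norm_num)
    obtain ⟨ν, P, a', b', hP, hνP, hadm', hab', hinj', ha'P, hf', hid⟩ :=
      to_minus hχ (adm_sub hadm e) (fun j => hab (e j)) (fun x y hxy => he (hinj hxy)) (fun j => has (e j)) (by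
        intro j
        have h2 := mem_filter.1 (heI j)
        exact ⟨hIf _ h2.1, h2.2⟩) p hpi (fun j => ⟨(hp' j).1, lt_of_le_of_lt hss (hp' j).2.1, (hp' j).2.2.2⟩)
    have hPs : P ≤ s ^ (w * K1) := by
      rw [hP, pow_mul]
      calc ∏ i, p i ≤ ∏ _i : Fin K1, s ^ w := prod_le_prod' fun i _ => (hp' i).2.2.1
        _ = (s ^ w) ^ K1 := by rw [prod_const, card_univ, Fintype.card_fin]
    obtain ⟨M'', hM''⟩ : ∃ M'' : ℕ, M'' = s ^ g1 := ⟨_, rfl⟩
    have hsM'' : s ≤ M'' := by rw [hM'']; exact Nat.le_self_pow (by omega) s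
    have ha'M : ∀ j, a' j ≤ M'' := by
      intro j
      refine (ha'P j).trans ?_
      calc a (e j) * P ≤ s * s ^ (w * K1) := Nat.mul_le_mul (has _) hPs
        _ = s ^ (w * K1 + 1) := by ring
        _ ≤ M'' := by rw [hM'']; exact Nat.pow_le_pow_right (by omega) (by omega)
    obtain ⟨n, hn1, hn2⟩ := hminus M'' (hs1.trans hsM'') f χ hχ a' b' hadm' hab' hinj' ha'M hf' (by
      rw [hM'', ← pow_mul, ← pow_mul]
      refine (hfilt _ _ ?_ hEV).trans (min_le_right _ _)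
      have h3 : 1 * (16 * E) ≤ g1 * (16 * E) := Nat.mul_le_mul_right _ (by omega)
      omega)
    refine ⟨ν + P * n, ?_, Or.inr (hn2.trans ?_)⟩
    · have h3 := bnd8 (by omega) hn1
      rw [hM'', ← pow_mul] at h3
      calc ν + P * n + 1 ≤ P * (n + 1) := by
            have : P * (n + 1) = P * n + P := by ring
            omega
        _ ≤ s ^ (w * K1) * s ^ (g1 * (A1 + 1)) := Nat.mul_le_mul hPs h3
        _ = s ^ (w * K1 + g1 * (A1 + 1)) := by rw [pow_add]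
        _ ≤ _ := Nat.pow_le_pow_right (by omega) (by omega)
    · refine le_trans (card_le_card ?_) (card_emb he (fun i => Semi (a i * (ν + P * n) + b i)))
      intro j hj
      rw [mem_filter] at hj ⊢
      exact ⟨mem_univ _, p j, a' j * n + b' j, (hp' j).1, hj.2, hid j n⟩

open Classical in
set_option maxHeartbeats 4000000 in
theorem mainK (m : ℕ) : ∃ K A M0 : ℕ, ∀ M : ℕ, M0 ≤ M → ∀ a b : Fin K → ℕ, Adm a b → (∀ i, 0 < a i ∧ b i ≤ a i) →
    Function.Injective (fun i => (a i, b i)) → (∀ i, a i ≤ M) →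
    ∃ n : ℕ, n ≤ M ^ A ∧ (m ≤ #((univ : Finset (Fin K)).filter (fun i => (a i * n + b i).Prime)) ∨
      m ≤ #((univ : Finset (Fin K)).filter (fun i => Semi (a i * n + b i)))) := by
  obtain ⟨K1, E, u, A1, M1, ϑ1, hK1, hE, hu, hϑ1, hminus⟩ := minusM m
  obtain ⟨w, hw17, hmp⟩ := minus_primes
  obtain ⟨G, δm, hG, hδm, hδm1, hlow⟩ := lowX
  obtain ⟨g1, hg1⟩ : ∃ g1 : ℕ, g1 = w * K1 + 2 := ⟨_, rfl⟩
  obtain ⟨V, hV⟩ : ∃ V : ℕ, V = g1 * (50 * u * E) + w + 16 := ⟨_, rfl⟩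
  have hV16 : 16 ≤ V := by omega
  obtain ⟨ϑ, hϑ⟩ : ∃ ϑ : ℝ, ϑ = min (1 / 4) ϑ1 := ⟨_, rfl⟩
  have hϑ0 : 0 < ϑ := by rw [hϑ]; exact lt_min (by norm_num) hϑ1
  obtain ⟨J, hJ⟩ := exists_nat_gt (G / ϑ)
  rw [div_lt_iff₀ hϑ0] at hJ
  have hVr : (0 : ℝ) < (V : ℝ) ^ J := by
    have : (0 : ℝ) < V := by
      have : 0 < V := by omega
      exact_mod_cast this
    positivity
  obtain ⟨δ, hδ⟩ : ∃ δ : ℝ, δ = min δm (1 / (V : ℝ) ^ J) := ⟨_, rfl⟩
  have hδ0 : 0 < δ := by rw [hδ]; exact lt_min hδm (by positivity)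
  have hδa : δ ≤ δm := by rw [hδ]; exact min_le_left _ _
  have hδb : δ * (V : ℝ) ^ J ≤ 1 := by
    have h1 : δ ≤ 1 / (V : ℝ) ^ J := by rw [hδ]; exact min_le_right _ _
    rw [le_div_iff₀ hVr] at h1
    exact h1
  obtain ⟨c1, hc1, hdich⟩ := hlow δ hδ0 hδa
  obtain ⟨K2, A2, M2, hgood⟩ := goodK m c1 δ hc1 hδ0
  obtain ⟨P0, hP0⟩ : ∃ P0 : ℕ, P0 = ∏ p ∈ Pz K2, p := ⟨_, rfl⟩
  have hPzp : ∀ p ∈ Pz K2, p.Prime := fun p hp => (mem_Pz.1 hp).2
  have hP0pos : 0 < P0 := by rw [hP0]; exact prod_pos fun p hp => (hPzp p hp).pos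
  obtain ⟨D, hD⟩ : ∃ D : ℕ, D = P0 ^ 3 := ⟨_, rfl⟩
  have hDpos : 0 < D := by rw [hD]; exact Nat.pow_pos hP0pos
  have hpP0 : ∀ p ∈ Pz K2, p ∣ P0 := fun p hp => by rw [hP0]; exact dvd_prod_of_mem (fun q => q) hp
  have hDs : ∀ p : ℕ, p.Prime → (p ∣ D ↔ p ∈ Pz K2) := by
    intro p hp
    rw [hD]
    constructor
    · intro h
      have h1 := hp.dvd_of_dvd_pow h
      rw [hP0] at h1
      exact pf_prod hPzp hp h1
    · intro h
      exact (hpP0 p h).trans (dvd_pow_self _ (by norm_num))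
  obtain ⟨Q, hQ⟩ : ∃ Q : ℕ, Q = g1 * (A1 + 1) + w * K1 + A1 + 1 := ⟨_, rfl⟩
  refine ⟨K2 + 2 * K1, 1 + 4 * V ^ J * Q + 2 * (A2 + 1), M1 + M2 + D + K1 + 17, ?_⟩
  intro M hM a b hadm hab hinj haM
  have hM17 : 17 ≤ M := by omega
  obtain ⟨ν, hνD, hadm', hab', hinj'⟩ := subst_D hadm hab hinj (Pz K2) hPzp D hDpos hDs
  obtain ⟨M', hM'⟩ : ∃ M' : ℕ, M' = M ^ 2 := ⟨_, rfl⟩
  have hMM' : M ≤ M' := by rw [hM']; exact Nat.le_self_pow (by norm_num) M
  have haM' : ∀ i, a i * D ≤ M' := by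
    intro i
    rw [hM', sq]
    exact Nat.mul_le_mul (haM i) (by omega)
  have hM'r : (17 : ℝ) ≤ M' := by exact_mod_cast hM17.trans hMM'
  have hM'0 : (0 : ℝ) < M' := by linarith
  obtain ⟨z, hz⟩ : ∃ z : ℕ, z = M' ^ 32 := ⟨_, rfl⟩
  have hz32 : 32 ≤ z := by
    rw [hz]
    calc 32 ≤ 17 ^ 32 := by norm_num
      _ ≤ M' ^ 32 := Nat.pow_le_pow_left (hM17.trans hMM') 32
  obtain ⟨huniq, hgoodL, hexc⟩ := hdich z hz32
  have hval : ∀ n i, a i * (ν + D * n) + b i = a i * D * n + (a i * ν + b i) := by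
    intro n i; ring
  -- the two kinds of forms
  have hcard : #((univ : Finset (Fin (K2 + 2 * K1))).filter (fun i => ∃ f, LOW.Exc z δ f ∧ f ∣ a i * D)) +
      #((univ : Finset (Fin (K2 + 2 * K1))).filter (fun i => ¬ ∃ f, LOW.Exc z δ f ∧ f ∣ a i * D)) = K2 + 2 * K1 := by
    rw [card_filter_add_card_filter_not, card_univ, Fintype.card_fin]
  rcases Nat.lt_or_ge (#((univ : Finset (Fin (K2 + 2 * K1))).filter
    (fun i => ¬ ∃ f, LOW.Exc z δ f ∧ f ∣ a i * D))) K2 with hlt | hge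
  · -- the exceptional modulus divides many `a i`
    have hI : 2 * K1 ≤ #((univ : Finset (Fin (K2 + 2 * K1))).filter (fun i => ∃ f, LOW.Exc z δ f ∧ f ∣ a i * D)) := by
      omega
    obtain ⟨i0, hi0⟩ := card_pos.1 (show 0 < #((univ : Finset (Fin (K2 + 2 * K1))).filter
      (fun i => ∃ f, LOW.Exc z δ f ∧ f ∣ a i * D)) by omega)
    obtain ⟨f, hf, hfa0⟩ := (mem_filter.1 hi0).2
    have hf1 : 1 < f := hf.1
    have : NeZero f := ⟨by omega⟩
    obtain ⟨ψ, hψp, hψ2, hψs⟩ := hexc f hf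
    have hψ1 : ψ ≠ 1 := LOW.primitive_ne_one hf1 hψp
    obtain ⟨χ, hχ, hψχ, _⟩ := chr_of ψ hψ1 hψ2
    have hχone : ∀ n : ℕ, χ n = 1 → ψ (n : ZMod f) = 1 := by
      intro n hn
      rw [hψχ, hn, Complex.ofReal_one]
    obtain ⟨g, hg⟩ : ∃ g : ℕ → ℝ, g = fun r => if r.Prime ∧ χ r = 1 then 1 / (r : ℝ) else 0 := ⟨_, rfl⟩
    have hg0 : ∀ r, 0 ≤ g r := by
      intro r
      rw [hg]
      simp only []
      split_ifs
      · positivity
      · exact le_rfl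
    have hsum : ∑ r ∈ Ioc (M' ^ 32) (M' ^ (32 * V ^ J)), g r ≤ G := by
      rw [hg, ← sum_filter]
      apply hψs
      intro p hp
      rw [mem_filter, mem_Ioc] at hp
      obtain ⟨⟨h1, h2⟩, h3, h4⟩ := hp
      refine ⟨h3, by rw [hz]; exact h1, ?_, hχone p h4⟩
      have hp0 : (0 : ℝ) < p := by exact_mod_cast h3.pos
      have h5 : Real.log p ≤ Real.log ((M' ^ (32 * V ^ J) : ℕ) : ℝ) := Real.log_le_log hp0 (by exact_mod_cast h2)
      rw [Nat.cast_pow, Real.log_pow] at h5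
      have h6 : Real.log z = 32 * Real.log M' := by
        rw [hz, Nat.cast_pow, Real.log_pow]; norm_num
      have hlogM : 0 ≤ Real.log M' := Real.log_nonneg (by linarith)
      rw [h6]
      calc δ * Real.log p ≤ δ * (((32 * V ^ J : ℕ) : ℝ) * Real.log M') := mul_le_mul_of_nonneg_left h5 hδ0.le
        _ = 32 * (δ * (V : ℝ) ^ J) * Real.log M' := by push_cast; ring
        _ ≤ 32 * 1 * Real.log M' := by gcongr
        _ = 32 * Real.log M' := by ring
    obtain ⟨t, htJ, ht⟩ := pigeon g hg0 M' V J (by omega) hV16 G ϑ hsum hJ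
    obtain ⟨s, hs⟩ : ∃ s : ℕ, s = M' ^ (2 * V ^ t) := ⟨_, rfl⟩
    rw [← hs] at ht
    have hVt : 1 ≤ V ^ t := Nat.one_le_pow _ _ (by omega)
    have hMs : M' ≤ s := by rw [hs]; exact Nat.le_self_pow (by omega) M'
    have has : ∀ i, a i * D ≤ s := fun i => (haM' i).trans hMs
    have hfs : f ≤ s := (Nat.le_of_dvd (hab' i0).1 hfa0).trans (has i0)
    obtain ⟨n, hn1, hn2⟩ := many_exc (K := K2 + 2 * K1) hE hminus hmp hg1 (by omega) (by omega) hχ (by omega) hfs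
      (by omega) (by omega) (by omega) (s := s) (V := V) (by
        intro x y hx hy
        rw [← hϑ]
        refine le_trans ?_ ht
        rw [sum_filter, hg]
        apply sum_le_sum_of_subset_of_nonneg
        · intro r hr
          rw [mem_Ioc] at hr ⊢
          exact ⟨lt_of_le_of_lt (Nat.pow_le_pow_right (by omega) hx) hr.1,
            hr.2.trans (Nat.pow_le_pow_right (by omega) hy)⟩
        · intro r _ _
          split_ifs
          · positivity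
          · exact le_rfl) hadm' hab' hinj' has
      ((univ : Finset (Fin (K2 + 2 * K1))).filter (fun i => ∃ f, LOW.Exc z δ f ∧ f ∣ a i * D)) hI (by
        intro i hi
        obtain ⟨f', hf', hd⟩ := (mem_filter.1 hi).2
        rw [huniq f f' hf hf']
        exact hd)
    refine ⟨ν + D * n, ?_, ?_⟩
    · rw [← hQ, hs, hM', ← pow_mul, ← pow_mul, ← mul_assoc] at hn1
      have h1 : V ^ t ≤ V ^ J := Nat.pow_le_pow_right (by omega) htJ.le
      have h2 : 2 * (2 * V ^ t) * Q ≤ 4 * V ^ J * Q := by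
        apply Nat.mul_le_mul_right
        omega
      calc ν + D * n ≤ D * (n + 1) := by
            have : D * (n + 1) = D * n + D := by ring
            omega
        _ ≤ M * M ^ (2 * (2 * V ^ t) * Q) := Nat.mul_le_mul (by omega) hn1
        _ = M ^ (1 + 2 * (2 * V ^ t) * Q) := by rw [pow_add, pow_one]
        _ ≤ _ := Nat.pow_le_pow_right (by omega) (by omega)
    · simp only [hval]
      exact hn2
  · -- many good forms
    obtain ⟨n, hn1, hn2⟩ := many_good hgood (M' := M') (z := z) (by omega) (by omega) hz huniq hgoodL hadm' hab' hinj'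
      haM' (by
        intro i p hp hpK
        have h1 : p ∣ P0 := hpP0 p (mem_Pz.2 ⟨hpK.le, hp⟩)
        have h2 : p ^ 3 ∣ D := by rw [hD]; exact pow_dvd_pow_of_dvd h1 3
        exact h2.mul_left (a i))
      ((univ : Finset (Fin (K2 + 2 * K1))).filter (fun i => ¬ ∃ f, LOW.Exc z δ f ∧ f ∣ a i * D)) hge (by
        intro i hi f hf hd
        exact (mem_filter.1 hi).2 ⟨f, hf, hd⟩)
    refine ⟨ν + D * n, ?_, Or.inl ?_⟩
    · have h3 := bnd8 (by omega) hn1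
      rw [hM', ← pow_mul] at h3
      calc ν + D * n ≤ D * (n + 1) := by
            have : D * (n + 1) = D * n + D := by ring
            omega
        _ ≤ M * M ^ (2 * (A2 + 1)) := Nat.mul_le_mul (by omega) h3
        _ = M ^ (1 + 2 * (A2 + 1)) := by rw [pow_add, pow_one]
        _ ≤ _ := Nat.pow_le_pow_right (by omega) (by omega)
    · simp only [hval]
      exact hn2

end Pool.Agent.H92.T
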