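import Pool.Agent.H92.T.MainX
import Pool.Graph.R_pool_sql_team_seeded_f0cf7b00.H262R3.Lk.Fn8

set_option autoImplicit false

/-! Many primes, or many products of two primes: all the forms. -/

namespace Pool.Agent.H92.T

open Finset Filter Topology
open Pool.Agent.H378R2 Pool.Agent.H262R3.Lk Pool.Agent.H262R2.UM Pool.Agent.H262R2.UP

/-- the form number `i` is exceptional -/
def Exc {f : ℕ} (χ : DirichletCharacter ℂ f) (D : ℕ) {k : ℕ} (a b : Fin k → ℕ) (i : Fin k) : Prop :=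
  f ∣ D * a i ∧ ∀ n : ℕ, (∀ j, (a j * n + b j).Coprime D) → χ ((a i * n + b i : ℕ) : ZMod f) = 1

open Classical in
/-- double counting of the subsets of a set -/
theorem dbl_on {α : Type} (V : Finset α) {K m : ℕ} (hmK : m ≤ K) (hK : K ≤ #V) (P : Finset α → Prop)
    (h : ∀ U ⊆ V, #U = K → ∃ S ⊆ U, #S = m ∧ P S) :
    (1 / (K.choose m : ℝ)) * ((#V).choose m : ℝ) ≤ #{S ∈ powersetCard m V | P S} := by
  obtain ⟨e, he⟩ : ∃ e : Fin #V ↪ α, ∀ j, e j ∈ V :=
    ⟨(V.equivFin.symm.toEmbedding).trans (Function.Embedding.subtype _), fun j => (V.equivFin.symm j).2⟩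
  have key := Pool.Agent.H262R3.Lk.dbl_count (k := #V) hmK hK (fun S => P (S.map e)) (by
    intro U hU
    obtain ⟨S, hS, hc, hP⟩ := h (U.map e) (by
      intro x hx
      obtain ⟨j, _, rfl⟩ := Finset.mem_map.1 hx
      exact he j) (by rw [card_map, hU])
    have h1 : (U.filter (fun j => e j ∈ S)).map e = S := by
      ext x
      rw [Finset.mem_map]
      constructor
      · rintro ⟨j, hj, rfl⟩
        exact (mem_filter.1 hj).2
      · intro hx
        obtain ⟨j, hj, rfl⟩ := Finset.mem_map.1 (hS hx)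
        exact ⟨j, mem_filter.2 ⟨hj, hx⟩, rfl⟩
    refine ⟨U.filter (fun j => e j ∈ S), filter_subset _ _, ?_, ?_⟩
    · have h2 : #((U.filter (fun j => e j ∈ S)).map e) = #(U.filter (fun j => e j ∈ S)) := card_map _
      rw [h1, hc] at h2
      exact h2.symm
    · rw [h1]
      exact hP)
  refine key.trans (Nat.cast_le.2 ?_)
  have h1 : ((powersetCard m (univ : Finset (Fin #V))).filter (fun S => P (S.map e))).image (fun S => S.map e) ⊆
      {S ∈ powersetCard m V | P S} := by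
    intro S hS
    rw [mem_image] at hS
    obtain ⟨T, hT, rfl⟩ := hS
    rw [mem_filter, mem_powersetCard] at hT ⊢
    refine ⟨⟨?_, by rw [card_map, hT.1.2]⟩, hT.2⟩
    intro x hx
    obtain ⟨j, _, rfl⟩ := Finset.mem_map.1 hx
    exact he j
  have h2 := card_le_card h1
  rwa [card_image_of_injective _ (map_injective e)] at h2

open Classical in
/-- many `n` for one set of `m` forms -/
theorem amp {K m : ℕ} {D t N M ν : ℕ} (hD : 0 < D) (P : ℕ → Fin K → Prop)
    (h : ∀ j < 2 ^ t, ∃ n : ℕ, ν + D * j + D * 2 ^ t * n ≤ N ∧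
      m ≤ #((univ : Finset (Fin K)).filter (fun i => P (ν + D * j + D * 2 ^ t * n) i)))
    (hM : 2 ^ K * M ≤ 2 ^ t) :
    ∃ S : Finset (Fin K), #S = m ∧ M ≤ #((range (N + 1)).filter (fun n => ∀ i ∈ S, P n i)) := by
  have h' : ∀ j, ∃ (n : ℕ) (S : Finset (Fin K)), j < 2 ^ t → (ν + D * j + D * 2 ^ t * n ≤ N ∧ #S = m ∧
      ∀ i ∈ S, P (ν + D * j + D * 2 ^ t * n) i) := by
    intro j
    by_cases hj : j < 2 ^ t
    · obtain ⟨n, h1, h2⟩ := h j hj
      obtain ⟨S, hS, hc⟩ := Finset.exists_subset_card_eq h2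
      exact ⟨n, S, fun _ => ⟨h1, hc, fun i hi => (mem_filter.1 (hS hi)).2⟩⟩
    · exact ⟨0, ∅, fun h => absurd h hj⟩
  choose n S hnS using h'
  have hpc : #(powersetCard m (univ : Finset (Fin K))) ≤ 2 ^ K := by
    rw [card_powersetCard, card_univ, Fintype.card_fin]
    exact Nat.choose_le_two_pow K m
  have hne : (powersetCard m (univ : Finset (Fin K))).Nonempty :=
    ⟨S 0, mem_powersetCard.2 ⟨subset_univ _, (hnS 0 (by positivity)).2.1⟩⟩
  obtain ⟨S0, hS0, hcard⟩ := Finset.exists_le_card_fiber_of_mul_le_card_of_maps_to (s := range (2 ^ t))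
    (t := powersetCard m (univ : Finset (Fin K))) (f := S) (n := M)
    (fun j hj => mem_powersetCard.2 ⟨subset_univ _, (hnS j (mem_range.1 hj)).2.1⟩) hne (by
      rw [card_range]
      exact (Nat.mul_le_mul_right _ hpc).trans hM)
  refine ⟨S0, (mem_powersetCard.1 hS0).2, hcard.trans ?_⟩
  refine card_le_card_of_injOn (fun j => ν + D * j + D * 2 ^ t * n j) ?_ ?_
  · intro j hj
    rw [mem_coe, mem_filter, mem_range] at hj
    obtain ⟨hj1, hj2⟩ := hj
    obtain ⟨h1, _, h3⟩ := hnS j hj1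
    rw [mem_coe, mem_filter, mem_range]
    exact ⟨by simp only; omega, fun i hi => h3 i (by rw [hj2]; exact hi)⟩
  · intro j hj j' hj' hjj
    rw [mem_coe, mem_filter, mem_range] at hj hj'
    simp only at hjj
    have h3 : D * (j + 2 ^ t * n j) = D * (j' + 2 ^ t * n j') := by
      have e1 : ν + D * j + D * 2 ^ t * n j = ν + D * (j + 2 ^ t * n j) := by ring
      have e2 : ν + D * j' + D * 2 ^ t * n j' = ν + D * (j' + 2 ^ t * n j') := by ring
      rw [e1, e2] at hjj
      omega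
    have h4 := Nat.eq_of_mul_eq_mul_left hD h3
    have h5 : (j + 2 ^ t * n j) % 2 ^ t = (j' + 2 ^ t * n j') % 2 ^ t := by rw [h4]
    rw [Nat.add_mul_mod_self_left, Nat.add_mul_mod_self_left, Nat.mod_eq_of_lt hj.1, Nat.mod_eq_of_lt hj'.1] at h5
    exact h5

/-- real characters have the values `1` and `-1` at the residues prime to the modulus -/
theorem real_val {f : ℕ} [NeZero f] (ψ : DirichletCharacter ℂ f) (h2 : ψ ^ 2 = 1) {n : ℕ} (hn : n.Coprime f) :
    ψ (n : ZMod f) = 1 ∨ ψ (n : ZMod f) = -1 := by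
  have h1 : IsUnit (n : ZMod f) := by
    rw [ZMod.isUnit_iff_coprime]
    exact hn
  have h3 : (ψ ^ 2) (n : ZMod f) = 1 := by
    rw [h2]
    exact MulChar.one_apply h1
  rw [MulChar.pow_apply' _ (by norm_num)] at h3
  have h4 : (ψ (n : ZMod f) - 1) * (ψ (n : ZMod f) + 1) = 0 := by linear_combination h3
  rcases mul_eq_zero.1 h4 with h | h
  · exact Or.inl (sub_eq_zero.1 h)
  · exact Or.inr (eq_neg_of_add_eq_zero_left h)

/-- the value of the character depends on `n` modulo `D` only -/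
theorem val_mod {f : ℕ} (ψ : DirichletCharacter ℂ f) {a b D n n' : ℕ} (hf : f ∣ a * D) (h : n ≡ n' [MOD D]) :
    ψ ((a * n + b : ℕ) : ZMod f) = ψ ((a * n' + b : ℕ) : ZMod f) := by
  congr 1
  rw [ZMod.natCast_eq_natCast_iff]
  apply Nat.ModEq.add_right
  have h1 : a * n ≡ a * n' [MOD a * D] := Nat.ModEq.mul_left' a h
  exact h1.of_dvd hf

theorem cop_mod {a b D n n' : ℕ} (h : n ≡ n' [MOD D]) (hc : (a * n + b).Coprime D) : (a * n' + b).Coprime D := by
  have h1 : a * n + b ≡ a * n' + b [MOD D] := (h.mul_left a).add_right b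
  unfold Nat.Coprime at hc ⊢
  rw [← h1.gcd_eq]
  exact hc

open Classical in
set_option maxHeartbeats 4000000 in
theorem finX (m : ℕ) : ∃ K A D : ℕ, 0 < D ∧ ∃ c : ℝ, 0 < c ∧ ∀ B : ℕ, ∃ γ : ℕ, ∀ M : ℕ, 2 ≤ M →
    ∃ (f : ℕ) (_ : NeZero f) (χ : DirichletCharacter ℂ f), (Real.log M) ^ B < f ∧ χ ^ 2 = 1 ∧ χ ≠ 1 ∧
    ∀ (k : ℕ) (a b : Fin k → ℕ), Adm a b → (∀ i, 0 < a i ∧ b i ≤ a i) →
      Function.Injective (fun i => (a i, b i)) → (∀ i, a i ≤ M) →
      (K ≤ #{i | ¬ Exc χ D a b i} → c * (#{i | ¬ Exc χ D a b i}).choose m ≤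
        #{S ∈ powersetCard m ({i | ¬ Exc χ D a b i} : Finset (Fin k)) |
          M ≤ #{n ∈ range (γ * M ^ A + 1) | ∀ i ∈ S, (a i * n + b i).Prime}}) ∧
      (K ≤ #{i | Exc χ D a b i} → c * (#{i | Exc χ D a b i}).choose m ≤
        #{S ∈ powersetCard m ({i | Exc χ D a b i} : Finset (Fin k)) |
          M ≤ #{n ∈ range (γ * M ^ A + 1) | ∀ i ∈ S, Semi (a i * n + b i)}}) := by
  obtain ⟨K, A, D, hK1, hD1, ⟨s, hsp, hsD⟩, h2D, hmain⟩ := mainX m
  obtain ⟨K', hK'⟩ : ∃ K' : ℕ, K' = K + D * K + m := ⟨_, rfl⟩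
  have hch : (0 : ℝ) < (K'.choose m : ℕ) := by
    have : 0 < K'.choose m := Nat.choose_pos (by omega)
    exact_mod_cast this
  refine ⟨K', A, D, hD1, 1 / (K'.choose m : ℝ), by positivity, fun B => ?_⟩
  obtain ⟨M0, hM0⟩ := hmain B
  obtain ⟨C, hC⟩ : ∃ C : ℕ, C = M0 + D * 2 ^ (K + 1) + 1 := ⟨_, rfl⟩
  refine ⟨C ^ A, fun M hM => ?_⟩
  have hMC : M ≤ C * M := Nat.le_mul_of_pos_left _ (by omega)
  have hMr : (2 : ℝ) ≤ M := by exact_mod_cast hM
  obtain ⟨f, hfne, χ, hf, hχ2, hχ1, hsys⟩ := hM0 (C * M) (by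
    calc M0 ≤ C * 1 := by omega
      _ ≤ C * M := Nat.mul_le_mul_left _ (by omega))
  refine ⟨f, hfne, χ, ?_, hχ2, hχ1, ?_⟩
  · refine lt_of_le_of_lt ?_ hf
    apply pow_le_pow_left₀ (Real.log_nonneg (by linarith))
    apply Real.log_le_log (by linarith)
    exact_mod_cast hMC
  intro k a b hadm hab hinj haM
  obtain ⟨t, ht⟩ : ∃ t : ℕ, t = K + 1 + Nat.log 2 M := ⟨_, rfl⟩
  have ht1 : 2 ^ K * M ≤ 2 ^ t := by
    have h1 : M < 2 ^ (Nat.log 2 M + 1) := Nat.lt_pow_succ_log_self (by norm_num) M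
    calc 2 ^ K * M ≤ 2 ^ K * 2 ^ (Nat.log 2 M + 1) := Nat.mul_le_mul_left _ h1.le
      _ = 2 ^ t := by rw [ht, ← pow_add]; congr 1; omega
  have ht2 : D * 2 ^ t ≤ C * M := by
    have h1 : 2 ^ Nat.log 2 M ≤ M := Nat.pow_log_le_self 2 (by omega)
    calc D * 2 ^ t = D * 2 ^ (K + 1) * 2 ^ Nat.log 2 M := by rw [ht, pow_add]; ring
      _ ≤ C * M := Nat.mul_le_mul (by omega) h1
  -- a residue class for all the forms
  obtain ⟨ρ0, hρ0D, hρ0⟩ : ∃ ρ : ℕ, ρ < D ∧ ∀ j, (a j * ρ + b j).Coprime D := by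
    obtain ⟨a0, ha0⟩ := crt_class hadm s hsp
    refine ⟨a0 % D, Nat.mod_lt _ hD1, fun j => cop_mod (Nat.mod_modEq a0 D).symm ?_⟩
    apply Nat.Coprime.symm
    apply Nat.coprime_of_dvd
    intro p hp hpD hpa
    have h1 : p ∣ ∏ q ∈ s, q := dvd_prod_of_mem (fun q => q) ((hsD p hp).1 hpD)
    have h2 := Nat.dvd_gcd hpa h1
    rw [ha0 j] at h2
    exact hp.one_lt.ne' (Nat.dvd_one.1 h2)
  -- the step for a fixed number of forms
  have hstep : ∀ (e : Fin K → Fin k), Function.Injective e → ∀ ρ : ℕ, ρ < D → (∀ j, (a j * ρ + b j).Coprime D) →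
      (((∀ j, ¬ f ∣ a (e j) * D) ∨ (∀ j, f ∣ a (e j) * D ∧ χ ((a (e j) * ρ + b (e j) : ℕ) : ZMod f) = -1)) →
        ∃ S : Finset (Fin K), #S = m ∧ M ≤ #((range (C ^ A * M ^ A + 1)).filter (fun n => ∀ j ∈ S,
          (a (e j) * n + b (e j)).Prime))) ∧
      ((∀ j, f ∣ a (e j) * D ∧ χ ((a (e j) * ρ + b (e j) : ℕ) : ZMod f) = 1) →
        ∃ S : Finset (Fin K), #S = m ∧ M ≤ #((range (C ^ A * M ^ A + 1)).filter (fun n => ∀ j ∈ S,
          Semi (a (e j) * n + b (e j))))) := by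
    intro e he ρ hρ hcop
    have hlt : ∀ j < 2 ^ t, ρ + D * j < D * 2 ^ t := by
      intro j hj
      calc ρ + D * j < D * (j + 1) := by
            have : D * (j + 1) = D * j + D := by ring
            omega
        _ ≤ D * 2 ^ t := Nat.mul_le_mul_left _ hj
    have hmod : ∀ j : ℕ, ρ ≡ ρ + D * j [MOD D] := by
      intro j
      unfold Nat.ModEq
      rw [Nat.add_mul_mod_self_left]
    have hs := fun j (hj : j < 2 ^ t) => hsys t ht2 (fun i => a (e i)) (fun i => b (e i)) (adm_sub hadm e)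
      (fun i => hab (e i)) (fun x y hxy => he (hinj hxy)) (fun i => (haM (e i)).trans hMC) (ρ + D * j) (hlt j hj)
      (fun i => cop_mod (hmod j) (hcop (e i)))
    constructor
    · intro h
      obtain ⟨S, hS1, hS2⟩ := amp (m := m) (t := t) (D := D) (ν := ρ) (N := C ^ A * M ^ A) (M := M) hD1
        (fun n i => (a (e i) * n + b (e i)).Prime) (by
          intro j hj
          obtain ⟨n, hn1, hn2⟩ := (hs j hj).1 (by
            rcases h with h | h
            · exact Or.inl h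
            · exact Or.inr fun i => ⟨(h i).1, by rw [← val_mod χ (h i).1 (hmod j)]; exact (h i).2⟩)
          rw [mul_pow] at hn1
          refine ⟨n, hn1, ?_⟩
          convert hn2) ht1
      refine ⟨S, hS1, ?_⟩
      convert hS2
    · intro h
      obtain ⟨S, hS1, hS2⟩ := amp (m := m) (t := t) (D := D) (ν := ρ) (N := C ^ A * M ^ A) (M := M) hD1
        (fun n i => Semi (a (e i) * n + b (e i))) (by
          intro j hj
          obtain ⟨n, hn1, hn2⟩ := (hs j hj).2 (fun i => ⟨(h i).1, by rw [← val_mod χ (h i).1 (hmod j)]; exact (h i).2⟩)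
          rw [mul_pow] at hn1
          refine ⟨n, hn1, ?_⟩
          convert hn2) ht1
      refine ⟨S, hS1, ?_⟩
      convert hS2
  have hback : ∀ (e : Fin K → Fin k), Function.Injective e → ∀ (P : ℕ → Prop) (S : Finset (Fin K)),
      M ≤ #((range (C ^ A * M ^ A + 1)).filter (fun n => ∀ j ∈ S, P (a (e j) * n + b (e j)))) →
      M ≤ #((range (C ^ A * M ^ A + 1)).filter (fun n => ∀ i ∈ S.image e, P (a i * n + b i))) := by
    intro e he P S h
    refine h.trans (card_le_card ?_)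
    intro n hn
    rw [mem_filter] at hn ⊢
    refine ⟨hn.1, fun i hi => ?_⟩
    obtain ⟨j, hj, rfl⟩ := mem_image.1 hi
    exact hn.2 j hj
  constructor
  · -- not exceptional
    intro hV
    suffices hsuf : ∀ U ⊆ ({i | ¬ Exc χ D a b i} : Finset (Fin k)), #U = K' → ∃ S ⊆ U, #S = m ∧
        M ≤ #{n ∈ range (C ^ A * M ^ A + 1) | ∀ i ∈ S, (a i * n + b i).Prime} by
      have hd := dbl_on ({i | ¬ Exc χ D a b i} : Finset (Fin k)) (K := K') (m := m) (by omega) hV
        (fun S => M ≤ #{n ∈ range (C ^ A * M ^ A + 1) | ∀ i ∈ S, (a i * n + b i).Prime}) hsuf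
      convert hd
    intro U hU hUc
    have hfin : ∀ (I : Finset (Fin k)), I ⊆ U → K ≤ #I → ∀ ρ : ℕ, ρ < D → (∀ j, (a j * ρ + b j).Coprime D) →
        ((∀ i ∈ I, ¬ f ∣ a i * D) ∨ (∀ i ∈ I, f ∣ a i * D ∧ χ ((a i * ρ + b i : ℕ) : ZMod f) = -1)) →
        ∃ S ⊆ U, #S = m ∧ M ≤ #{n ∈ range (C ^ A * M ^ A + 1) | ∀ i ∈ S, (a i * n + b i).Prime} := by
      intro I hIU hI ρ hρ hcop h
      obtain ⟨e, he, heI⟩ := sub_emb I hI
      obtain ⟨S, hS1, hS2⟩ := (hstep e he ρ hρ hcop).1 (by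
        rcases h with h | h
        · exact Or.inl fun j => h _ (heI j)
        · exact Or.inr fun j => h _ (heI j))
      have h5 := hback e he Nat.Prime S (by convert hS2)
      refine ⟨S.image e, ?_, by rw [card_image_of_injective _ he, hS1], by convert h5⟩
      intro i hi
      obtain ⟨j, _, rfl⟩ := mem_image.1 hi
      exact hIU (heI j)
    rcases Nat.lt_or_ge (#(U.filter (fun i => ¬ f ∣ a i * D))) K with hlt | hge
    · -- many `i` with `f ∣ a i * D`
      have hcardU : #(U.filter (fun i => f ∣ a i * D)) + #(U.filter (fun i => ¬ f ∣ a i * D)) = #U :=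
        card_filter_add_card_filter_not _
      have hDK : D * K ≤ #(U.filter (fun i => f ∣ a i * D)) := by omega
      have hex : ∀ i : Fin k, ∃ n : ℕ, i ∈ U.filter (fun i => f ∣ a i * D) → (∀ j, (a j * n + b j).Coprime D) ∧
          χ ((a i * n + b i : ℕ) : ZMod f) = -1 := by
        intro i
        by_cases hi : i ∈ U.filter (fun i => f ∣ a i * D)
        · obtain ⟨hiU, hif⟩ := mem_filter.1 hi
          have h1 := (mem_filter.1 (hU hiU)).2
          unfold Exc at h1
          rw [mul_comm D] at h1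
          push Not at h1
          obtain ⟨n, hn1, hn2⟩ := h1 hif
          refine ⟨n, fun _ => ⟨hn1, ?_⟩⟩
          have hc1 : (a i * n + b i).Coprime (a i) := by
            have h3 : (b i).Coprime (a i) := adm_coprime hadm i
            have h4 : a i * n + b i = b i + a i * n := by ring
            rw [h4]
            rw [Nat.coprime_add_mul_left_left]
            exact h3
          have hc2 : (a i * n + b i).Coprime f :=
            Nat.Coprime.coprime_dvd_right hif (Nat.Coprime.mul_right hc1 (hn1 i))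
          rcases real_val χ hχ2 hc2 with h3 | h3
          · exact absurd h3 hn2
          · exact h3
        · exact ⟨0, fun h => absurd h hi⟩
      choose N hN using hex
      obtain ⟨ρ, hρ, hcard⟩ := Finset.exists_le_card_fiber_of_mul_le_card_of_maps_to
        (s := U.filter (fun i => f ∣ a i * D)) (t := range D) (f := fun i => N i % D) (n := K)
        (fun i _ => mem_range.2 (Nat.mod_lt _ hD1)) ⟨0, mem_range.2 hD1⟩ (by rw [card_range]; exact hDK)
      rw [mem_range] at hρ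
      have hKpos : 0 < #((U.filter (fun i => f ∣ a i * D)).filter (fun i => N i % D = ρ)) := by omega
      obtain ⟨i0, hi0⟩ := card_pos.1 hKpos
      obtain ⟨hi01, hi02⟩ := mem_filter.1 hi0
      refine hfin ((U.filter (fun i => f ∣ a i * D)).filter (fun i => N i % D = ρ))
        ((filter_subset _ _).trans (filter_subset _ _)) hcard ρ hρ ?_ (Or.inr ?_)
      · intro j
        refine cop_mod (n := N i0) ?_ ((hN i0 hi01).1 j)
        rw [← hi02]
        exact (Nat.mod_modEq _ _).symm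
      · intro i hi
        obtain ⟨hi1, hi2⟩ := mem_filter.1 hi
        have hif := (mem_filter.1 hi1).2
        refine ⟨hif, ?_⟩
        rw [← (hN i hi1).2]
        apply val_mod χ hif
        rw [← hi2]
        exact Nat.mod_modEq _ _
    · exact hfin _ (filter_subset _ _) hge ρ0 hρ0D hρ0 (Or.inl fun i hi => (mem_filter.1 hi).2)
  · -- exceptional
    intro hV
    suffices hsuf : ∀ U ⊆ ({i | Exc χ D a b i} : Finset (Fin k)), #U = K' → ∃ S ⊆ U, #S = m ∧
        M ≤ #{n ∈ range (C ^ A * M ^ A + 1) | ∀ i ∈ S, Semi (a i * n + b i)} by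
      have hd := dbl_on ({i | Exc χ D a b i} : Finset (Fin k)) (K := K') (m := m) (by omega) hV
        (fun S => M ≤ #{n ∈ range (C ^ A * M ^ A + 1) | ∀ i ∈ S, Semi (a i * n + b i)}) hsuf
      convert hd
    intro U hU hUc
    obtain ⟨e, he, heI⟩ := sub_emb (k := K) U (by omega)
    obtain ⟨S, hS1, hS2⟩ := (hstep e he ρ0 hρ0D hρ0).2 (fun j => by
      have h1 := (mem_filter.1 (hU (heI j))).2
      unfold Exc at h1
      rw [mul_comm D] at h1
      exact ⟨h1.1, h1.2 ρ0 hρ0⟩)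
    refine ⟨S.image e, ?_, by rw [card_image_of_injective _ he, hS1], hback e he Semi S hS2⟩
    intro i hi
    obtain ⟨j, _, rfl⟩ := mem_image.1 hi
    exact heI j

end Pool.Agent.H92.T
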