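import Pool.Agent.H92.T.Minus

set_option autoImplicit false

/-! Many primes: no exceptional modulus divides the moduli. -/

namespace Pool.Agent.H92.T

open Finset Filter Topology
open Pool.Agent.H378R2 Pool.Agent.H262R3.Lk Pool.Agent.H262R2.UM Pool.Agent.H262R2.UP

set_option maxHeartbeats 4000000 in
theorem goodK (m : ℕ) (c1 δ0 : ℝ) (hc1 : 0 < c1) (hδ0 : 0 < δ0) : ∃ K A M0 : ℕ, ∀ M : ℕ, M0 ≤ M →
    ∀ (a b : Fin K → ℕ) (T : Finset ℕ), Adm a b → (∀ i, 0 < a i ∧ b i ≤ a i) →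
      Function.Injective (fun i => (a i, b i)) → (∀ i, a i ≤ M) → (∀ p ∈ T, p.Prime) → #T ≤ K → (∀ p ∈ T, K ≤ p) →
      (∀ i, ∀ χ : DirichletCharacter ℂ (a i * WT M T), χ ≠ 1 → ∀ σ : ℝ, 0 < σ →
        σ * Real.log ((M ^ 32 : ℕ) : ℝ) ≤ δ0 → c1 ≤ ‖Lj (M ^ 32) χ 0 σ‖) →
      ∃ n : ℕ, (n : ℝ) ≤ 8 * (M : ℝ) ^ A ∧ m ≤ #((univ : Finset (Fin K)).filter (fun i => (a i * n + b i).Prime)) := by
  obtain ⟨δ, c, hδ, hδ1, hc, hcomb⟩ := h_comb c1 hc1
  obtain ⟨η, R, c', hη, hηR, hc', hwin⟩ := h_win c hc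
  obtain ⟨c5, hc5, hsel⟩ := h_sel η R c' hη hηR hc'
  obtain ⟨K0, A1, hst⟩ := stage2 c5 hc5 m
  set K : ℕ := ⌈((K0 : ℝ) + 1) / c5⌉₊ with hK
  obtain ⟨κ, hκdef⟩ : ∃ κ : ℝ, κ = min (η / (16 * ((A1 : ℝ) + 1))) (min (δ / 32) (min (δ0 / 32) (η / 128))) := ⟨_, rfl⟩
  have hA1p : (0 : ℝ) < 16 * ((A1 : ℝ) + 1) := by positivity
  have hκ0 : 0 < κ := by
    rw [hκdef]
    exact lt_min (by positivity) (lt_min (by positivity) (lt_min (by positivity) (by positivity)))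
  have hκ1 : κ ≤ η / (16 * ((A1 : ℝ) + 1)) := by rw [hκdef]; exact min_le_left _ _
  have hκ2 : κ ≤ δ / 32 := by rw [hκdef]; exact (min_le_right _ _).trans (min_le_left _ _)
  have hκ3 : κ ≤ δ0 / 32 := by
    rw [hκdef]; exact (min_le_right _ _).trans ((min_le_right _ _).trans (min_le_left _ _))
  have hκ4 : κ ≤ η / 128 := by
    rw [hκdef]; exact (min_le_right _ _).trans ((min_le_right _ _).trans (min_le_right _ _))
  have hR0 : 0 < R := hη.trans hηR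
  set A2 : ℕ := ⌈R / (8 * κ)⌉₊ with hA2
  have hA2r : R / (8 * κ) ≤ A2 := Nat.le_ceil _
  obtain ⟨M1, hst2⟩ := hst A2
  refine ⟨K, 4 * A2, M1 + 3, fun M hM => ?_⟩
  have hM3 : 3 ≤ M := by omega
  have hMr : (3 : ℝ) ≤ M := by exact_mod_cast hM3
  have hM0 : (0 : ℝ) < M := by linarith
  have hL1 : 1 ≤ Real.log M := by
    rw [Real.le_log_iff_exp_le hM0]
    have := Real.exp_one_lt_d9
    linarith
  have hL0 : 0 < Real.log M := by linarith
  intro a b T hadm hab hinj haM hTp hTc hTK hchar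
  obtain ⟨z, hz⟩ : ∃ z : ℕ, z = M ^ 32 := ⟨_, rfl⟩
  rw [← hz] at hchar
  have hz32 : 32 ≤ z := by
    rw [hz]
    calc 32 ≤ 3 ^ 32 := by norm_num
      _ ≤ M ^ 32 := Nat.pow_le_pow_left hM3 32
  have hlogz : Real.log (z : ℝ) = 32 * Real.log M := by
    rw [hz]; push_cast; rw [Real.log_pow]; norm_num
  have hapos : ∀ i, 0 < a i := fun i => (hab i).1
  obtain ⟨W, hW⟩ : ∃ W : ℕ, W = WT M T := ⟨_, rfl⟩
  rw [← hW] at hchar
  have hWpos : 0 < W := by rw [hW]; exact WT_pos M T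
  have hWM : W ≤ M := by rw [hW]; exact WT_le M (by omega) T
  obtain ⟨a0, ha0⟩ := crt_class hadm (Pz (wM M) \ T) (fun p hp => (mem_Pz.1 (Finset.mem_sdiff.1 hp).1).2)
  have hcop : ∀ i, (a i * a0 + b i).Coprime (a i * W) := fun i =>
    coprime_self_mul (adm_coprime hadm i) (by rw [hW]; exact ha0 i)
  have hqle : ∀ i, a i * W ≤ M ^ 2 := fun i => by
    calc a i * W ≤ M * M := Nat.mul_le_mul (haM i) hWM
      _ = M ^ 2 := by ring
  have hq1' : ∀ i, 1 ≤ a i * W := fun i => Nat.mul_pos (hapos i) hWpos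
  have hq16 : ∀ i, (a i * W) ^ 16 ≤ z := fun i => by
    calc (a i * W) ^ 16 ≤ (M ^ 2) ^ 16 := Nat.pow_le_pow_left (hqle i) 16
      _ = z := by rw [hz, ← pow_mul]
  have hq8 : ∀ i, (a i * W) ^ 8 ≤ z := fun i =>
    (Nat.pow_le_pow_right (hq1' i) (by norm_num)).trans (hq16 i)
  obtain ⟨σ, hσdef⟩ : ∃ σ : ℝ, σ = κ / Real.log M := ⟨_, rfl⟩
  have hσ0 : 0 < σ := by rw [hσdef]; positivity
  have hσz : σ * Real.log (z : ℝ) = 32 * κ := by
    rw [hlogz, hσdef]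
    field_simp
  have hσδ : σ * Real.log (z : ℝ) ≤ δ := by rw [hσz]; linarith
  have hσδ0 : σ * Real.log (z : ℝ) ≤ δ0 := by rw [hσz]; linarith
  have hση : σ * Real.log (z : ℝ) ≤ η / 4 := by rw [hσz]; linarith
  have hσs : ∀ i, σ * (sh (a i) : ℝ) ≤ η / 2 := by
    intro i
    have har : (1 : ℝ) ≤ a i := by exact_mod_cast hapos i
    have hlog : 0 ≤ Real.log (a i) := Real.log_nonneg har
    have h1 : (sh (a i) : ℝ) < 2 * Real.log (a i) + 1 := Nat.ceil_lt_add_one (by positivity)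
    have h2 : Real.log (a i) ≤ Real.log M := Real.log_le_log (by linarith) (by exact_mod_cast haM i)
    have h3 : (sh (a i) : ℝ) ≤ 3 * Real.log M := by linarith
    calc σ * (sh (a i) : ℝ) ≤ σ * (3 * Real.log M) := mul_le_mul_of_nonneg_left h3 hσ0.le
      _ = 3 * κ := by rw [hσdef]; field_simp
      _ ≤ η / 2 := by linarith
  have hwins : ∀ i, c' / ((a i * W).totient * σ ^ 3) ≤
      ∑ k ∈ Icc ⌈η / σ⌉₊ ⌊R / σ⌋₊, (k : ℝ) ^ 2 * Real.exp (-(σ * k / 2)) * wn (a i * W) (a i * a0 + b i) k := by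
    intro i
    apply hwin z (a i * W) (a i * a0 + b i) σ hz32 (hq1' i) (hq8 i) (hcop i) hσ0 hση
    apply hcomb z (a i * W) (a i * a0 + b i) σ hz32 (hq1' i) (hq8 i) (hcop i) hσ0 hσδ
    intro χ hχ
    exact hchar i χ hχ σ hσ0 hσδ0
  obtain ⟨l, hl1, hl2, hcard⟩ := hsel K z σ (fun i => a i * W) (fun i => a i * a0 + b i) (fun i => sh (a i)) hz32
    (fun i => ⟨hq1' i, hq8 i, hcop i⟩) hσ0 hση hσs hwins
  have hKr : ((K0 : ℝ) + 1) / c5 ≤ K := Nat.le_ceil _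
  rw [div_le_iff₀ hc5] at hKr
  have hcard2 : K0 + 1 ≤ #((univ : Finset (Fin K)).filter (fun i => c5 / ((a i * W).totient : ℝ) ≤
      wn (a i * W) (a i * a0 + b i) (l + sh (a i)))) := by
    have h1 : ((K0 + 1 : ℕ) : ℝ) ≤ #((univ : Finset (Fin K)).filter (fun i => c5 / ((a i * W).totient : ℝ) ≤
      wn (a i * W) (a i * a0 + b i) (l + sh (a i)))) := by
      push_cast
      linarith
    exact_mod_cast h1
  obtain ⟨e, he, heI⟩ := sub_emb _ hcard2
  have hlX1 : (M : ℝ) ^ (4 * A1) ≤ Real.exp ((l : ℝ) / 2) := by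
    have h1 : (M : ℝ) ^ (4 * A1) = Real.exp ((4 * A1 : ℝ) * Real.log M) := by
      rw [← Real.rpow_natCast, Real.rpow_def_of_pos hM0]
      push_cast
      ring_nf
    rw [h1]
    apply Real.exp_le_exp.2
    have h2 : η / (2 * σ) = η / (2 * κ) * Real.log M := by
      rw [hσdef]; field_simp
    rw [h2] at hl1
    have h3 : 16 * ((A1 : ℝ) + 1) * κ ≤ η := by
      rw [le_div_iff₀ hA1p] at hκ1
      linarith
    have h4 : 8 * ((A1 : ℝ) + 1) ≤ η / (2 * κ) := by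
      rw [le_div_iff₀ (by positivity)]
      linarith
    have h5 : 8 * ((A1 : ℝ) + 1) * Real.log M ≤ l :=
      (mul_le_mul_of_nonneg_right h4 hL0.le).trans hl1
    nlinarith
  have hlX2 : Real.exp ((l : ℝ) / 2) ≤ (M : ℝ) ^ (4 * A2) := by
    have h1 : (M : ℝ) ^ (4 * A2) = Real.exp ((4 * A2 : ℝ) * Real.log M) := by
      rw [← Real.rpow_natCast, Real.rpow_def_of_pos hM0]
      push_cast
      ring_nf
    rw [h1]
    apply Real.exp_le_exp.2
    have h2 : R / σ = 8 * (R / (8 * κ)) * Real.log M := by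
      rw [hσdef]; field_simp
    rw [h2] at hl2
    have h5 : 8 * (R / (8 * κ)) * Real.log M ≤ 8 * A2 * Real.log M := by gcongr
    linarith
  obtain ⟨n, hn, hm⟩ := hst2 M (by omega) K l a0 T (fun j => a (e j)) (fun j => b (e j)) hTp hTc hTK
    (fun p hp => by
      obtain ⟨n, hn⟩ := hadm p hp
      exact ⟨n, fun j => hn (e j)⟩)
    (fun j => hab (e j)) (fun x y hxy => he (hinj hxy)) (fun j => haM (e j)) hlX1 hlX2
    (fun j => by rw [← hW]; exact hcop (e j))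
    (fun j => by rw [← hW]; exact (mem_filter.1 (heI j)).2)
  refine ⟨n, ?_, ?_⟩
  · refine hn.trans ?_
    exact mul_le_mul_of_nonneg_left hlX2 (by norm_num)
  · refine hm.trans ?_
    have h1 : ((univ : Finset (Fin (K0 + 1))).filter (fun j => (a (e j) * n + b (e j)).Prime)).image e ⊆
        (univ : Finset (Fin K)).filter (fun i => (a i * n + b i).Prime) := by
      intro i hi
      rw [mem_image] at hi
      obtain ⟨j, hj, rfl⟩ := hi
      rw [mem_filter] at hj ⊢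
      exact ⟨mem_univ _, hj.2⟩
    have h2 := card_le_card h1
    rwa [card_image_of_injective _ he] at h2

end Pool.Agent.H92.T
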