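import Pool.Agent.H92.T.Main
import Pool.Agent.H92.K.MainV

set_option autoImplicit false

/-! Many primes, or many products of two primes: the exceptional forms are explicit. -/

namespace Pool.Agent.H92.T

open Finset Filter Topology
open Pool.Agent.H378R2 Pool.Agent.H262R3.Lk Pool.Agent.H262R2.UM Pool.Agent.H262R2.UP
open Pool.Agent.H92.G (Chr lowX pigeon chr_of sub_surj)
open Pool.Agent.H92.K (exc_large real_char)

/-- restriction to a given class modulo `D` -/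
theorem subst_nu {K : ℕ} {a b : Fin K → ℕ} (hadm : Adm a b) (hab : ∀ i, 0 < a i ∧ b i ≤ a i)
    (hinj : Function.Injective (fun i => (a i, b i))) (D : ℕ) (hD : 0 < D) (ν : ℕ) (hν : ν < D)
    (hc : ∀ i, (a i * ν + b i).Coprime D) :
    Adm (fun i => a i * D) (fun i => a i * ν + b i) ∧
      (∀ i, 0 < a i * D ∧ a i * ν + b i ≤ a i * D) ∧
      Function.Injective (fun i => (a i * D, a i * ν + b i)) := by
  refine ⟨?_, ?_, ?_⟩
  · intro p hp
    by_cases hpD : p ∣ D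
    · refine ⟨0, fun i => ?_⟩
      simp only [mul_zero, zero_add]
      intro hd
      have h1 := Nat.dvd_gcd hd hpD
      rw [hc i] at h1
      exact hp.one_lt.ne' (Nat.dvd_one.1 h1)
    · obtain ⟨n', hn'⟩ := hadm p hp
      have hDp : D.Coprime p := by
        rw [Nat.coprime_comm, Nat.Prime.coprime_iff_not_dvd hp]
        exact hpD
      obtain ⟨n, _, hn⟩ := sub_surj (p := p) (r := D) (s := ν) (c' := n' % p) hp.pos hDp (Nat.mod_lt _ hp.pos)
      refine ⟨n, fun i hd => hn' i ?_⟩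
      have h1 : a i * D * n + (a i * ν + b i) = a i * (ν + D * n) + b i := by ring
      rw [h1] at hd
      have h2 : ν + D * n ≡ n' [MOD p] := by
        unfold Nat.ModEq
        rw [hn]
      have h3 : a i * (ν + D * n) + b i ≡ a i * n' + b i [MOD p] := (h2.mul_left _).add_right _
      exact (h3.dvd_iff dvd_rfl).1 hd
  · intro i
    refine ⟨Nat.mul_pos (hab i).1 hD, ?_⟩
    have h1 : a i * (ν + 1) ≤ a i * D := Nat.mul_le_mul_left _ hν
    have h2 : a i * (ν + 1) = a i * ν + a i := by ring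
    have := (hab i).2
    omega
  · intro i j hij
    apply hinj
    simp only [Prod.mk.injEq] at hij ⊢
    have h1 : a i = a j := Nat.eq_of_mul_eq_mul_right hD hij.1
    refine ⟨h1, ?_⟩
    have h2 := hij.2
    rw [h1] at h2
    omega

/-- the exceptional case, `χ = -1` at all the values -/
theorem case_minus {m K1 E u A1 M1 w g1 V : ℕ} {ϑ1 : ℝ} (hE : 1 ≤ E)
    (hminus : ∀ M : ℕ, M1 ≤ M → ∀ (f : ℕ) (χ : ℕ → ℝ), Chr f χ → ∀ a b : Fin K1 → ℕ, Adm a b →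
      (∀ i, 0 < a i ∧ b i ≤ a i) →
      Function.Injective (fun i => (a i, b i)) → (∀ i, a i ≤ M) → (∀ i, f ∣ a i ∧ χ (b i) = -1) →
      ∑ r ∈ (Ioc (M ^ (16 * E)) (M ^ (50 * u * E))).filter (fun r => r.Prime ∧ χ r = 1), 1 / (r : ℝ) ≤ ϑ1 →
      ∃ n : ℕ, (n : ℝ) ≤ 8 * (M : ℝ) ^ A1 ∧
        m ≤ #((univ : Finset (Fin K1)).filter (fun i => (a i * n + b i).Prime)))
    (hg1 : g1 = w * K1 + 2) (hEV : g1 * (50 * u * E) ≤ V)
    {s f : ℕ} {χ : ℕ → ℝ} (hχ : Chr f χ) (hs1 : M1 ≤ s) (hs17 : 17 ≤ s)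
    (hfilt : ∀ x y : ℕ, 16 ≤ x → y ≤ V →
      ∑ r ∈ (Ioc (s ^ x) (s ^ y)).filter (fun r => r.Prime ∧ χ r = 1), 1 / (r : ℝ) ≤ min (1 / 4) ϑ1)
    {a b : Fin K1 → ℕ} (hadm : Adm a b) (hab : ∀ i, 0 < a i ∧ b i ≤ a i)
    (hinj : Function.Injective (fun i => (a i, b i))) (has : ∀ i, a i ≤ s) (hIf : ∀ i, f ∣ a i ∧ χ (b i) = -1) :
    ∃ n : ℕ, n + 1 ≤ s ^ (g1 * (A1 + 1) + w * K1 + A1 + 1) ∧
      m ≤ #((univ : Finset (Fin K1)).filter (fun i => (a i * n + b i).Prime)) := by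
  have hEV' : 50 * u * E ≤ V := by
    have h1 : 1 * (50 * u * E) ≤ g1 * (50 * u * E) := Nat.mul_le_mul_right _ (by omega)
    omega
  obtain ⟨n, hn1, hn2⟩ := hminus s hs1 f χ hχ a b hadm hab hinj has hIf
    ((hfilt (16 * E) (50 * u * E) (by omega) hEV').trans (min_le_right _ _))
  refine ⟨n, ?_, hn2⟩
  exact (bnd8 (by omega) hn1).trans (Nat.pow_le_pow_right (by omega) (by omega))

open Classical in
/-- the exceptional case, `χ = 1` at all the values -/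
theorem case_plus {m K1 E u A1 M1 w g1 V : ℕ} {ϑ1 : ℝ} (hE : 1 ≤ E)
    (hminus : ∀ M : ℕ, M1 ≤ M → ∀ (f : ℕ) (χ : ℕ → ℝ), Chr f χ → ∀ a b : Fin K1 → ℕ, Adm a b →
      (∀ i, 0 < a i ∧ b i ≤ a i) →
      Function.Injective (fun i => (a i, b i)) → (∀ i, a i ≤ M) → (∀ i, f ∣ a i ∧ χ (b i) = -1) →
      ∑ r ∈ (Ioc (M ^ (16 * E)) (M ^ (50 * u * E))).filter (fun r => r.Prime ∧ χ r = 1), 1 / (r : ℝ) ≤ ϑ1 →
      ∃ n : ℕ, (n : ℝ) ≤ 8 * (M : ℝ) ^ A1 ∧
        m ≤ #((univ : Finset (Fin K1)).filter (fun i => (a i * n + b i).Prime)))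
    (hmp : ∀ s : ℕ, 3 ≤ s → ∀ (f : ℕ) (χ : ℕ → ℝ), Chr f χ → 0 < f → f ≤ s →
      ∑ r ∈ (Ioc (s ^ 16) (s ^ w)).filter (fun r => r.Prime ∧ χ r = 1), 1 / (r : ℝ) ≤ 1 / 4 →
      s ≤ ((Ioc (s ^ 16) (s ^ w)).filter (fun r => r.Prime ∧ χ r = -1)).card)
    (hg1 : g1 = w * K1 + 2) (hwV : w ≤ V) (hEV : g1 * (50 * u * E) ≤ V)
    {s f : ℕ} {χ : ℕ → ℝ} (hχ : Chr f χ) (hf0 : 0 < f) (hfs : f ≤ s) (hs1 : M1 ≤ s) (hs17 : 17 ≤ s) (hK1s : K1 ≤ s)
    (hfilt : ∀ x y : ℕ, 16 ≤ x → y ≤ V →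
      ∑ r ∈ (Ioc (s ^ x) (s ^ y)).filter (fun r => r.Prime ∧ χ r = 1), 1 / (r : ℝ) ≤ min (1 / 4) ϑ1)
    {a b : Fin K1 → ℕ} (hadm : Adm a b) (hab : ∀ i, 0 < a i ∧ b i ≤ a i)
    (hinj : Function.Injective (fun i => (a i, b i))) (has : ∀ i, a i ≤ s) (hIf : ∀ i, f ∣ a i ∧ χ (b i) = 1) :
    ∃ n : ℕ, n + 1 ≤ s ^ (g1 * (A1 + 1) + w * K1 + A1 + 1) ∧
      m ≤ #((univ : Finset (Fin K1)).filter (fun i => Semi (a i * n + b i))) := by
  have hmany := hmp s (by omega) f χ hχ hf0 hfs ((hfilt 16 w le_rfl hwV).trans (min_le_left _ _))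
  obtain ⟨p, hpi, hp⟩ := sub_nat _ (hK1s.trans hmany)
  have hp' : ∀ j, (p j).Prime ∧ s ^ 16 < p j ∧ p j ≤ s ^ w ∧ χ (p j) = -1 := by
    intro j
    have h2 := mem_filter.1 (hp j)
    exact ⟨h2.2.1, (mem_Ioc.1 h2.1).1, (mem_Ioc.1 h2.1).2, h2.2.2⟩
  have hss : s * s ≤ s ^ 16 := by
    calc s * s = s ^ 2 := by ring
      _ ≤ s ^ 16 := Nat.pow_le_pow_right (by omega) (by norm_num)
  obtain ⟨ν, P, a', b', hP, hνP, hadm', hab', hinj', ha'P, hf', hid⟩ :=
    to_minus hχ hadm hab hinj has hIf p hpi (fun j => ⟨(hp' j).1, lt_of_le_of_lt hss (hp' j).2.1, (hp' j).2.2.2⟩)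
  have hPs : P ≤ s ^ (w * K1) := by
    rw [hP, pow_mul]
    calc ∏ i, p i ≤ ∏ _i : Fin K1, s ^ w := prod_le_prod' fun i _ => (hp' i).2.2.1
      _ = (s ^ w) ^ K1 := by rw [prod_const, card_univ, Fintype.card_fin]
  obtain ⟨M'', hM''⟩ : ∃ M'' : ℕ, M'' = s ^ g1 := ⟨_, rfl⟩
  have hsM'' : s ≤ M'' := by rw [hM'']; exact Nat.le_self_pow (by omega) s
  have ha'M : ∀ j, a' j ≤ M'' := by
    intro j
    refine (ha'P j).trans ?_
    calc a j * P ≤ s * s ^ (w * K1) := Nat.mul_le_mul (has _) hPs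
      _ = s ^ (w * K1 + 1) := by ring
      _ ≤ M'' := by rw [hM'']; exact Nat.pow_le_pow_right (by omega) (by omega)
  obtain ⟨n, hn1, hn2⟩ := hminus M'' (hs1.trans hsM'') f χ hχ a' b' hadm' hab' hinj' ha'M hf' (by
    rw [hM'', ← pow_mul, ← pow_mul]
    refine (hfilt _ _ ?_ hEV).trans (min_le_right _ _)
    have h3 : 1 * (16 * E) ≤ g1 * (16 * E) := Nat.mul_le_mul_right _ (by omega)
    omega)
  refine ⟨ν + P * n, ?_, (hn2.trans ?_)⟩
  · have h3 := bnd8 (by omega) hn1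
    rw [hM'', ← pow_mul] at h3
    calc ν + P * n + 1 ≤ P * (n + 1) := by
          have : P * (n + 1) = P * n + P := by ring
          omega
      _ ≤ s ^ (w * K1) * s ^ (g1 * (A1 + 1)) := Nat.mul_le_mul hPs h3
      _ = s ^ (w * K1 + g1 * (A1 + 1)) := by rw [pow_add]
      _ ≤ _ := Nat.pow_le_pow_right (by omega) (by omega)
  · apply card_le_card
    intro j hj
    rw [mem_filter] at hj ⊢
    exact ⟨mem_univ _, p j, a' j * n + b' j, (hp' j).1, hj.2, hid j n⟩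

open Classical in
set_option maxHeartbeats 4000000 in
/-- For a fixed number of forms and a given residue class modulo `D 2 ^ t`: the three cases. -/
theorem mainX (m : ℕ) : ∃ K A D : ℕ, 1 ≤ K ∧ 1 ≤ D ∧ (∃ s : Finset ℕ, (∀ p ∈ s, p.Prime) ∧ ∀ p : ℕ, p.Prime → (p ∣ D ↔ p ∈ s)) ∧
    2 ∣ D ∧ ∀ B : ℕ, ∃ M0 : ℕ, ∀ M : ℕ, M0 ≤ M →
    ∃ (f : ℕ) (_ : NeZero f) (ψ : DirichletCharacter ℂ f), (Real.log M) ^ B < f ∧ ψ ^ 2 = 1 ∧ ψ ≠ 1 ∧
    ∀ t : ℕ, D * 2 ^ t ≤ M → ∀ a b : Fin K → ℕ, Adm a b → (∀ i, 0 < a i ∧ b i ≤ a i) →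
    Function.Injective (fun i => (a i, b i)) → (∀ i, a i ≤ M) →
    ∀ ν : ℕ, ν < D * 2 ^ t → (∀ i, (a i * ν + b i).Coprime D) →
      (((∀ i, ¬ f ∣ a i * D) ∨ (∀ i, f ∣ a i * D ∧ ψ ((a i * ν + b i : ℕ) : ZMod f) = -1)) →
        ∃ n : ℕ, ν + D * 2 ^ t * n ≤ M ^ A ∧
          m ≤ #((univ : Finset (Fin K)).filter (fun i => (a i * (ν + D * 2 ^ t * n) + b i).Prime))) ∧
      ((∀ i, f ∣ a i * D ∧ ψ ((a i * ν + b i : ℕ) : ZMod f) = 1) →
        ∃ n : ℕ, ν + D * 2 ^ t * n ≤ M ^ A ∧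
          m ≤ #((univ : Finset (Fin K)).filter (fun i => Semi (a i * (ν + D * 2 ^ t * n) + b i)))) := by
  obtain ⟨K1, E, u, A1, M1, ϑ1, hK1, hE, hu, hϑ1, hminus⟩ := minusM m
  obtain ⟨w, hw17, hmp⟩ := minus_primes
  obtain ⟨G, δm, hG, hδm, hδm1, hlow⟩ := lowX
  obtain ⟨g1, hg1⟩ : ∃ g1 : ℕ, g1 = w * K1 + 2 := ⟨_, rfl⟩
  obtain ⟨V, hV⟩ : ∃ V : ℕ, V = g1 * (50 * u * E) + w + 16 := ⟨_, rfl⟩
  have hV16 : 16 ≤ V := by omega
  obtain ⟨ϑ, hϑ⟩ : ∃ ϑ : ℝ, ϑ = min (1 / 4) ϑ1 := ⟨_, rfl⟩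
  have hϑ0 : 0 < ϑ := by rw [hϑ]; exact lt_min (by norm_num) hϑ1
  obtain ⟨J, hJ⟩ := exists_nat_gt (G / ϑ)
  rw [div_lt_iff₀ hϑ0] at hJ
  have hVr : (0 : ℝ) < (V : ℝ) ^ J := by
    have : (0 : ℝ) < V := by
      have : 0 < V := by omega
      exact_mod_cast this
    positivity
  obtain ⟨δ, hδ⟩ : ∃ δ : ℝ, δ = min δm (1 / (V : ℝ) ^ J) := ⟨_, rfl⟩
  have hδ0 : 0 < δ := by rw [hδ]; exact lt_min hδm (by positivity)
  have hδa : δ ≤ δm := by rw [hδ]; exact min_le_left _ _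
  have hδb : δ * (V : ℝ) ^ J ≤ 1 := by
    have h1 : δ ≤ 1 / (V : ℝ) ^ J := by rw [hδ]; exact min_le_right _ _
    rw [le_div_iff₀ hVr] at h1
    exact h1
  obtain ⟨c1, hc1, hdich⟩ := hlow δ hδ0 hδa
  obtain ⟨K2, A2, M2, hgood⟩ := goodK m c1 δ hc1 hδ0
  obtain ⟨P0, hP0⟩ : ∃ P0 : ℕ, P0 = ∏ p ∈ Pz (K2 + 2), p := ⟨_, rfl⟩
  have hPzp : ∀ p ∈ Pz (K2 + 2), p.Prime := fun p hp => (mem_Pz.1 hp).2
  have hP0pos : 0 < P0 := by rw [hP0]; exact prod_pos fun p hp => (hPzp p hp).pos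
  obtain ⟨D, hD⟩ : ∃ D : ℕ, D = P0 ^ 3 := ⟨_, rfl⟩
  have hDpos : 0 < D := by rw [hD]; exact Nat.pow_pos hP0pos
  have hpP0 : ∀ p ∈ Pz (K2 + 2), p ∣ P0 := fun p hp => by rw [hP0]; exact dvd_prod_of_mem (fun q => q) hp
  have hDs : ∀ p : ℕ, p.Prime → (p ∣ D ↔ p ∈ Pz (K2 + 2)) := by
    intro p hp
    rw [hD]
    constructor
    · intro h
      have h1 := hp.dvd_of_dvd_pow h
      rw [hP0] at h1
      exact pf_prod hPzp hp h1
    · intro h
      exact (hpP0 p h).trans (dvd_pow_self _ (by norm_num))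
  have h2P0 : 2 ∣ P0 := hpP0 2 (mem_Pz.2 ⟨by omega, Nat.prime_two⟩)
  have h8D : 2 ^ 3 ∣ D := by rw [hD]; exact pow_dvd_pow_of_dvd h2P0 3
  obtain ⟨Q, hQ⟩ : ∃ Q : ℕ, Q = g1 * (A1 + 1) + w * K1 + A1 + 1 := ⟨_, rfl⟩
  refine ⟨K1 + K2 + 1, 1 + 4 * V ^ J * Q + 2 * (A2 + 1), D, by omega, hDpos, ⟨_, hPzp, hDs⟩,
    h2P0.trans (by rw [hD]; exact dvd_pow_self _ (by norm_num)), fun B => ?_⟩
  obtain ⟨M4, hM4⟩ := exc_large B
  refine ⟨M1 + M2 + M4 + D + K1 + 17, ?_⟩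
  intro M hM
  have hM17 : 17 ≤ M := by omega
  have hMr : (17 : ℝ) ≤ M := by exact_mod_cast hM17
  obtain ⟨M', hM'⟩ : ∃ M' : ℕ, M' = M ^ 2 := ⟨_, rfl⟩
  have hMM' : M ≤ M' := by rw [hM']; exact Nat.le_self_pow (by norm_num) M
  have hM'r : (17 : ℝ) ≤ M' := by exact_mod_cast hM17.trans hMM'
  have hM'0 : (0 : ℝ) < M' := by linarith
  obtain ⟨z, hz⟩ : ∃ z : ℕ, z = M' ^ 32 := ⟨_, rfl⟩
  have hz32 : 32 ≤ z := by
    rw [hz]
    calc 32 ≤ 17 ^ 32 := by norm_num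
      _ ≤ M' ^ 32 := Nat.pow_le_pow_left (hM17.trans hMM') 32
  obtain ⟨huniq, hgoodL, hexc⟩ := hdich z hz32
  -- the two embeddings
  obtain ⟨e1, he1⟩ : ∃ e : Fin K1 → Fin (K1 + K2 + 1), Function.Injective e :=
    ⟨Fin.castLE (by omega), Fin.castLE_injective _⟩
  obtain ⟨e2, he2⟩ : ∃ e : Fin K2 → Fin (K1 + K2 + 1), Function.Injective e :=
    ⟨Fin.castLE (by omega), Fin.castLE_injective _⟩
  -- the case of good forms
  have hcaseG : ∀ t : ℕ, D * 2 ^ t ≤ M → ∀ a b : Fin (K1 + K2 + 1) → ℕ, Adm a b → (∀ i, 0 < a i ∧ b i ≤ a i) →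
      Function.Injective (fun i => (a i, b i)) → (∀ i, a i ≤ M) →
      ∀ ν : ℕ, ν < D * 2 ^ t → (∀ i, (a i * ν + b i).Coprime D) →
      (∀ i, ∀ f, LOW.Exc z δ f → ¬ f ∣ a i * (D * 2 ^ t)) →
        ∃ n : ℕ, ν + D * 2 ^ t * n ≤ M ^ (1 + 4 * V ^ J * Q + 2 * (A2 + 1)) ∧
          m ≤ #((univ : Finset (Fin (K1 + K2 + 1))).filter (fun i => (a i * (ν + D * 2 ^ t * n) + b i).Prime)) := by
    intro t htM a b hadm hab hinj haM ν hν hcop hno
    have hDt : 0 < D * 2 ^ t := by positivity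
    have hcop' : ∀ i, (a i * ν + b i).Coprime (D * 2 ^ t) := by
      intro i
      apply Nat.Coprime.mul_right (hcop i)
      apply Nat.Coprime.pow_right
      exact Nat.Coprime.coprime_dvd_right ((dvd_pow_self 2 (by norm_num)).trans h8D) (hcop i)
    obtain ⟨hadm', hab', hinj'⟩ := subst_nu hadm hab hinj (D * 2 ^ t) hDt ν hν hcop'
    have haM' : ∀ i, a i * (D * 2 ^ t) ≤ M' := by
      intro i
      rw [hM', sq]
      exact Nat.mul_le_mul (haM i) htM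
    obtain ⟨n, hn1, hn2⟩ := many_good hgood (M' := M') (z := z) (by omega) (by omega) hz huniq hgoodL
      (adm_sub hadm' e2) (fun j => hab' (e2 j)) (fun x y hxy => he2 (hinj' hxy))
      (fun j => haM' (e2 j)) (by
        intro i p hp hpK
        have h1 : p ∣ P0 := hpP0 p (mem_Pz.2 ⟨by omega, hp⟩)
        have h2 : p ^ 3 ∣ D := by rw [hD]; exact pow_dvd_pow_of_dvd h1 3
        exact (h2.mul_right _).mul_left _)
      (univ : Finset (Fin K2)) (by rw [card_univ, Fintype.card_fin]) (by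
        intro i _ f hf hd
        exact hno _ f hf hd)
    refine ⟨n, ?_, ?_⟩
    · have h3 := bnd8 (by omega) hn1
      rw [hM', ← pow_mul] at h3
      calc ν + D * 2 ^ t * n ≤ D * 2 ^ t * (n + 1) := by
            have : D * 2 ^ t * (n + 1) = D * 2 ^ t * n + D * 2 ^ t := by ring
            omega
        _ ≤ M * M ^ (2 * (A2 + 1)) := Nat.mul_le_mul htM h3
        _ = M ^ (1 + 2 * (A2 + 1)) := by rw [pow_add, pow_one]
        _ ≤ _ := Nat.pow_le_pow_right (by omega) (by omega)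
    · refine hn2.trans (le_trans (le_of_eq ?_) (card_emb he2 (fun i => (a i * (ν + D * 2 ^ t * n) + b i).Prime)))
      congr 1
      apply filter_congr
      intro j _
      have e : a (e2 j) * (D * 2 ^ t) * n + (a (e2 j) * ν + b (e2 j)) = a (e2 j) * (ν + D * 2 ^ t * n) + b (e2 j) := by
        ring
      rw [e]
  by_cases hExc : ∃ f, LOW.Exc z δ f
  · obtain ⟨f, hf⟩ := hExc
    have hf1 : 1 < f := hf.1
    have : NeZero f := ⟨by omega⟩
    obtain ⟨ψ, hψp, hψ2, hψs⟩ := hexc f hf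
    have hψ1 : ψ ≠ 1 := LOW.primitive_ne_one hf1 hψp
    obtain ⟨χ, hχ, hψχ, _⟩ := chr_of ψ hψ1 hψ2
    have hflog : (Real.log M) ^ B < f := by
      refine lt_of_le_of_lt ?_ (hM4 M' (by omega) δ (hδa.trans hδm1) f (by rw [← hz]; exact hf))
      apply pow_le_pow_left₀ (Real.log_nonneg (by linarith))
      apply Real.log_le_log (by linarith)
      exact_mod_cast hMM'
    refine ⟨f, this, ψ, hflog, hψ2, hψ1, ?_⟩
    intro t htM a b hadm hab hinj haM ν hν hcop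
    have hDt : 0 < D * 2 ^ t := by positivity
    -- the power of two does not matter
    have hf16 : ¬ 2 ^ 4 ∣ f := by
      obtain ⟨_, hq2⟩ := h_qs f ψ (by omega) hψp hψ2
      simpa using hq2
    have hpow : ∀ i, f ∣ a i * (D * 2 ^ t) → f ∣ a i * D := by
      intro i hd
      rw [← Nat.factorization_prime_le_iff_dvd (by omega) (Nat.mul_pos (hab i).1 hDpos).ne']
      intro p hp
      by_cases hp2 : p = 2
      · subst hp2
        have h1 : f.factorization 2 < 4 := by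
          by_contra hcon
          push Not at hcon
          exact hf16 ((Nat.prime_two.pow_dvd_iff_le_factorization (by omega)).2 hcon)
        have h2 : 2 ^ 3 ∣ a i * D := h8D.mul_left _
        have h3 := (Nat.prime_two.pow_dvd_iff_le_factorization (Nat.mul_pos (hab i).1 hDpos).ne').1 h2
        omega
      · have h1 := (Nat.factorization_prime_le_iff_dvd (by omega) (Nat.mul_pos (hab i).1 hDt).ne').2 hd p hp
        have h2 : (a i * (D * 2 ^ t)).factorization p = (a i * D).factorization p := by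
          rw [← mul_assoc, Nat.factorization_mul (Nat.mul_pos (hab i).1 hDpos).ne' (by positivity)]
          rw [Finsupp.add_apply, Nat.factorization_pow, Finsupp.smul_apply,
            Nat.factorization_eq_zero_of_not_dvd (n := 2) (p := p) (by
              intro h3
              exact hp2 ((Nat.prime_dvd_prime_iff_eq hp Nat.prime_two).1 h3))]
          simp
        rw [h2] at h1
        exact h1
    have hup : ∀ i, f ∣ a i * D → f ∣ a i * (D * 2 ^ t) := by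
      intro i hd
      rw [← mul_assoc]
      exact hd.mul_right _
    have hcop' : ∀ i, (a i * ν + b i).Coprime (D * 2 ^ t) := by
      intro i
      apply Nat.Coprime.mul_right (hcop i)
      apply Nat.Coprime.pow_right
      exact Nat.Coprime.coprime_dvd_right ((dvd_pow_self 2 (by norm_num)).trans h8D) (hcop i)
    obtain ⟨hadm', hab', hinj'⟩ := subst_nu hadm hab hinj (D * 2 ^ t) hDt ν hν hcop'
    have haM' : ∀ i, a i * (D * 2 ^ t) ≤ M' := by
      intro i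
      rw [hM', sq]
      exact Nat.mul_le_mul (haM i) htM
    -- the scale
    obtain ⟨g, hg⟩ : ∃ g : ℕ → ℝ, g = fun r => if r.Prime ∧ χ r = 1 then 1 / (r : ℝ) else 0 := ⟨_, rfl⟩
    have hg0 : ∀ r, 0 ≤ g r := by
      intro r
      rw [hg]
      simp only []
      split_ifs
      · positivity
      · exact le_rfl
    have hχone : ∀ n : ℕ, χ n = 1 → ψ (n : ZMod f) = 1 := by
      intro n hn
      rw [hψχ, hn, Complex.ofReal_one]
    have hsum : ∑ r ∈ Ioc (M' ^ 32) (M' ^ (32 * V ^ J)), g r ≤ G := by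
      rw [hg, ← sum_filter]
      apply hψs
      intro p hp
      rw [mem_filter, mem_Ioc] at hp
      obtain ⟨⟨h1, h2⟩, h3, h4⟩ := hp
      refine ⟨h3, by rw [hz]; exact h1, ?_, hχone p h4⟩
      have hp0 : (0 : ℝ) < p := by exact_mod_cast h3.pos
      have h5 : Real.log p ≤ Real.log ((M' ^ (32 * V ^ J) : ℕ) : ℝ) := Real.log_le_log hp0 (by exact_mod_cast h2)
      rw [Nat.cast_pow, Real.log_pow] at h5
      have h6 : Real.log z = 32 * Real.log M' := by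
        rw [hz, Nat.cast_pow, Real.log_pow]; norm_num
      have hlogM : 0 ≤ Real.log M' := Real.log_nonneg (by linarith)
      rw [h6]
      calc δ * Real.log p ≤ δ * (((32 * V ^ J : ℕ) : ℝ) * Real.log M') := mul_le_mul_of_nonneg_left h5 hδ0.le
        _ = 32 * (δ * (V : ℝ) ^ J) * Real.log M' := by push_cast; ring
        _ ≤ 32 * 1 * Real.log M' := by gcongr
        _ = 32 * Real.log M' := by ring
    obtain ⟨τ, hτJ, hτ⟩ := pigeon g hg0 M' V J (by omega) hV16 G ϑ hsum hJ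
    obtain ⟨s, hs⟩ : ∃ s : ℕ, s = M' ^ (2 * V ^ τ) := ⟨_, rfl⟩
    rw [← hs] at hτ
    have hVt : 1 ≤ V ^ τ := Nat.one_le_pow _ _ (by omega)
    have hMs : M' ≤ s := by rw [hs]; exact Nat.le_self_pow (by omega) M'
    have has : ∀ i, a i * (D * 2 ^ t) ≤ s := fun i => (haM' i).trans hMs
    have hfilt : ∀ x y : ℕ, 16 ≤ x → y ≤ V →
        ∑ r ∈ (Ioc (s ^ x) (s ^ y)).filter (fun r => r.Prime ∧ χ r = 1), 1 / (r : ℝ) ≤ min (1 / 4) ϑ1 := by
      intro x y hx hy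
      rw [← hϑ]
      refine le_trans ?_ hτ
      rw [sum_filter, hg]
      apply sum_le_sum_of_subset_of_nonneg
      · intro r hr
        rw [mem_Ioc] at hr ⊢
        exact ⟨lt_of_le_of_lt (Nat.pow_le_pow_right (by omega) hx) hr.1,
          hr.2.trans (Nat.pow_le_pow_right (by omega) hy)⟩
      · intro r _ _
        split_ifs
        · positivity
        · exact le_rfl
    have hbound : ∀ n : ℕ, n + 1 ≤ s ^ Q → ν + D * 2 ^ t * n ≤ M ^ (1 + 4 * V ^ J * Q + 2 * (A2 + 1)) := by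
      intro n hn1
      rw [hs, hM', ← pow_mul, ← pow_mul, ← mul_assoc] at hn1
      have h1 : V ^ τ ≤ V ^ J := Nat.pow_le_pow_right (by omega) hτJ.le
      have h2 : 2 * (2 * V ^ τ) * Q ≤ 4 * V ^ J * Q := by
        apply Nat.mul_le_mul_right
        omega
      calc ν + D * 2 ^ t * n ≤ D * 2 ^ t * (n + 1) := by
            have : D * 2 ^ t * (n + 1) = D * 2 ^ t * n + D * 2 ^ t := by ring
            omega
        _ ≤ M * M ^ (2 * (2 * V ^ τ) * Q) := Nat.mul_le_mul htM hn1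
        _ = M ^ (1 + 2 * (2 * V ^ τ) * Q) := by rw [pow_add, pow_one]
        _ ≤ _ := Nat.pow_le_pow_right (by omega) (by omega)
    have hval : ∀ n (j : Fin K1), a (e1 j) * (D * 2 ^ t) * n + (a (e1 j) * ν + b (e1 j)) =
        a (e1 j) * (ν + D * 2 ^ t * n) + b (e1 j) := by
      intro n j; ring
    have hχval : ∀ n : ℕ, ψ (n : ZMod f) = -1 → χ n = -1 := by
      intro n hn
      rw [hψχ] at hn
      have h1 : ((χ n : ℝ) : ℂ) = ((-1 : ℝ) : ℂ) := by rw [hn]; push_cast; ring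
      exact_mod_cast h1
    have hχval1 : ∀ n : ℕ, ψ (n : ZMod f) = 1 → χ n = 1 := by
      intro n hn
      rw [hψχ] at hn
      have h1 : ((χ n : ℝ) : ℂ) = ((1 : ℝ) : ℂ) := by rw [hn]; push_cast; ring
      exact_mod_cast h1
    constructor
    · rintro (hno | hmin)
      · exact hcaseG t htM a b hadm hab hinj haM ν hν hcop (by
          intro i f' hf' hd
          rw [huniq f' f hf' hf] at hd
          exact hno i (hpow i hd))
      · obtain ⟨n, hn1, hn2⟩ := case_minus (a := fun j => a (e1 j) * (D * 2 ^ t)) (b := fun j => a (e1 j) * ν + b (e1 j))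
          hE hminus hg1 (V := V) (by omega) hχ (s := s) (by omega) (by omega) hfilt
          (adm_sub hadm' e1) (fun j => hab' (e1 j)) (fun x y hxy => he1 (hinj' hxy)) (fun j => has (e1 j))
          (fun j => ⟨hup _ (hmin (e1 j)).1, hχval _ (hmin (e1 j)).2⟩)
        rw [← hQ] at hn1
        refine ⟨n, hbound n hn1, hn2.trans (le_trans (le_of_eq ?_)
          (card_emb he1 (fun i => (a i * (ν + D * 2 ^ t * n) + b i).Prime)))⟩
        congr 1
        apply filter_congr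
        intro j _
        rw [hval]
    · intro hplus
      have hf0 : 0 < f := by omega
      have hfs : f ≤ s := by
        have h1 := Nat.le_of_dvd (Nat.mul_pos (hab ⟨0, by omega⟩).1 hDt) (hup _ (hplus ⟨0, by omega⟩).1)
        exact h1.trans (has _)
      obtain ⟨n, hn1, hn2⟩ := case_plus (a := fun j => a (e1 j) * (D * 2 ^ t)) (b := fun j => a (e1 j) * ν + b (e1 j))
        hE hminus hmp hg1 (V := V) (by omega) (by omega) hχ hf0 hfs (s := s) (by omega) (by omega) (by omega) hfilt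
        (adm_sub hadm' e1) (fun j => hab' (e1 j)) (fun x y hxy => he1 (hinj' hxy)) (fun j => has (e1 j))
        (fun j => ⟨hup _ (hplus (e1 j)).1, hχval1 _ (hplus (e1 j)).2⟩)
      rw [← hQ] at hn1
      refine ⟨n, hbound n hn1, hn2.trans (le_trans (le_of_eq ?_)
        (card_emb he1 (fun i => Semi (a i * (ν + D * 2 ^ t * n) + b i))))⟩
      congr 1
      apply filter_congr
      intro j _
      rw [hval]
  · -- no exceptional modulus
    obtain ⟨L, hL⟩ : ∃ L : ℕ, L = M * M + 1 + ⌈(Real.log M) ^ B⌉₊ := ⟨_, rfl⟩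
    obtain ⟨ψ, hψ2, hψ1⟩ := real_char L (by omega)
    refine ⟨4 * L, ⟨by omega⟩, ψ, ?_, hψ2, hψ1, ?_⟩
    · have h1 := Nat.le_ceil ((Real.log M) ^ B)
      have h2 : ((⌈(Real.log M) ^ B⌉₊ : ℕ) : ℝ) + 1 ≤ ((4 * L : ℕ) : ℝ) := by
        have : ⌈(Real.log M) ^ B⌉₊ + 1 ≤ 4 * L := by omega
        exact_mod_cast this
      linarith
    · intro t htM a b hadm hab hinj haM ν hν hcop
      refine ⟨fun _ => hcaseG t htM a b hadm hab hinj haM ν hν hcop (fun i f hf => absurd ⟨f, hf⟩ hExc), fun hplus => ?_⟩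
      exfalso
      have h1 := Nat.le_of_dvd (Nat.mul_pos (hab ⟨0, by omega⟩).1 hDpos) (hplus ⟨0, by omega⟩).1
      have h2 : a ⟨0, by omega⟩ * D ≤ M * M := Nat.mul_le_mul (haM _) (by omega)
      omega

end Pool.Agent.H92.T
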