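import Pool.Agent.H92.M.Cnt1
import Pool.Agent.H92.G.LowX
import Pool.Agent.H92.I.Rows

set_option autoImplicit false

/-! From the number of primes in a class to the smooth windows. -/

namespace Pool.Agent.H92.T

open Finset Filter Topology
open Pool.Agent.H378R2 Pool.Agent.H262R3.Lk Pool.Agent.H262R2.UM Pool.Agent.H262R2.UP

/-- the product over the primes not dividing `q` -/
theorem BE_q : ∃ c : ℝ, 0 < c ∧ ∀ z0 N q : ℕ, 3 ≤ N → 0 < q → q ≤ N →
    c * ((q : ℝ) / q.totient / Real.log N) ≤ ∏ p ∈ (Pz N).filter (fun p => z0 < p ∧ ¬ p ∣ q), (1 - 1 / (p : ℝ)) := by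
  classical
  obtain ⟨cV, hcV, _, HV⟩ := Pool.Agent.Y835.SC.V_ratio
  refine ⟨1 / 2 * (cV * Real.log 2), ?_, ?_⟩
  · have : 0 < Real.log 2 := Real.log_pos (by norm_num)
    positivity
  intro z0 N q hN hq hqN
  have hl2 : 0 < Real.log 2 := Real.log_pos (by norm_num)
  have hlN : 0 < Real.log N := Real.log_pos (by exact_mod_cast (by omega : 1 < N))
  have hPp : ∀ p ∈ Pz N, p.Prime := fun p hp => (mem_Pz.1 hp).2
  have h1 : cV * (Real.log (2 : ℕ) / Real.log N) ≤ BE ((Pz N).filter (fun p => 2 < p)) := by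
    apply HV 2 N le_rfl (by omega)
    intro p hp
    rw [mem_filter, mem_Pz] at hp
    exact ⟨hp.1.2, hp.2, hp.1.1⟩
  have h2 : 1 / 2 * BE ((Pz N).filter (fun p => 2 < p)) ≤ BE (Pz N) := by
    have h3 : Pz N = insert 2 ((Pz N).filter (fun p => 2 < p)) := by
      ext p
      rw [mem_insert, mem_filter, mem_Pz]
      constructor
      · rintro ⟨h4, h5⟩
        rcases Nat.lt_or_ge 2 p with h6 | h6
        · exact Or.inr ⟨⟨h4, h5⟩, h6⟩
        · have := h5.two_le
          left; omega
      · rintro (h4 | h4)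
        · subst h4
          exact ⟨by omega, Nat.prime_two⟩
        · exact h4.1
    conv_rhs => rw [h3]
    unfold BE
    rw [prod_insert (by simp)]
    norm_num
  have h4 : q.primeFactors ⊆ Pz N := by
    intro p hp
    rw [mem_Pz]
    exact ⟨(Nat.le_of_dvd hq (Nat.dvd_of_mem_primeFactors hp)).trans hqN, Nat.prime_of_mem_primeFactors hp⟩
  have h5 := BE_sub h4
  have h6 : BE (Pz N \ q.primeFactors) ≤ BE ((Pz N).filter (fun p => z0 < p ∧ ¬ p ∣ q)) := by
    apply BE_anti
    · intro p hp
      rw [mem_filter] at hp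
      rw [Finset.mem_sdiff]
      exact ⟨hp.1, fun h => hp.2.2 (Nat.dvd_of_mem_primeFactors h)⟩
    · intro p hp
      exact hPp p (Finset.mem_sdiff.1 hp).1
  have h7 := tot_BE q
  have hq0 : (0 : ℝ) < q := by exact_mod_cast hq
  have hφ0 : (0 : ℝ) < q.totient := by exact_mod_cast Nat.totient_pos.2 hq
  have h8 : BE q.primeFactors = q.totient / q := by
    rw [h7]; field_simp
  have h9 : BE (Pz N \ q.primeFactors) = BE (Pz N) * (q / q.totient) := by
    rw [h5, h8]; field_simp
  have h10 : 1 / 2 * (cV * (Real.log 2 / Real.log N)) ≤ BE (Pz N) := by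
    refine le_trans ?_ h2
    have : ((2 : ℕ) : ℝ) = 2 := by norm_num
    rw [this] at h1
    linarith
  calc 1 / 2 * (cV * Real.log 2) * ((q : ℝ) / q.totient / Real.log N) =
        1 / 2 * (cV * (Real.log 2 / Real.log N)) * (q / q.totient) := by field_simp
    _ ≤ BE (Pz N) * (q / q.totient) := mul_le_mul_of_nonneg_right h10 (by positivity)
    _ = BE (Pz N \ q.primeFactors) := h9.symm
    _ ≤ _ := h6

/-- the window of a number -/
noncomputable def kw (P : ℕ) : ℕ := ⌊2 * Real.log P - 1 / 2⌋₊

theorem kw_facts {P : ℕ} (hP : 3 ≤ P) : (kw P : ℝ) ≤ 2 * Real.log P - 1 / 2 ∧ 2 * Real.log P - 3 / 2 < kw P ∧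
    1 / 4 ≤ Phi ((P : ℝ) / Real.exp ((kw P : ℝ) / 2)) ∧ (P : ℝ) ≤ 3 * Real.exp ((kw P : ℝ) / 2) := by
  have hPr : (3 : ℝ) ≤ P := by exact_mod_cast hP
  have hlP : 1 ≤ Real.log P := by
    rw [Real.le_log_iff_exp_le (by linarith)]
    have := Real.exp_one_lt_d9
    linarith
  have h1 : (kw P : ℝ) ≤ 2 * Real.log P - 1 / 2 := Nat.floor_le (by linarith)
  have h2 : 2 * Real.log P - 1 / 2 < kw P + 1 := Nat.lt_floor_add_one _
  have hx : Real.log ((P : ℝ) / Real.exp ((kw P : ℝ) / 2)) = Real.log P - kw P / 2 := by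
    rw [Real.log_div (by linarith) (Real.exp_pos _).ne', Real.log_exp]
  refine ⟨h1, by linarith, ?_, ?_⟩
  · unfold Phi
    rw [hx]
    apply le_max_of_le_right
    have h3 : |Real.log P - kw P / 2 - 1 / 2| ≤ 1 / 4 := by
      rw [abs_le]
      constructor <;> linarith
    linarith
  · have h3 : Real.log P ≤ (kw P : ℝ) / 2 + 1 := by linarith
    have h4 : (P : ℝ) = Real.exp (Real.log P) := (Real.exp_log (by linarith)).symm
    have h5 : Real.exp 1 ≤ 3 := by
      have := Real.exp_one_lt_d9
      linarith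
    calc (P : ℝ) = Real.exp (Real.log P) := h4
      _ ≤ Real.exp ((kw P : ℝ) / 2 + 1) := Real.exp_le_exp.2 h3
      _ = Real.exp ((kw P : ℝ) / 2) * Real.exp 1 := Real.exp_add _ _
      _ ≤ Real.exp ((kw P : ℝ) / 2) * 3 := mul_le_mul_of_nonneg_left h5 (Real.exp_pos _).le
      _ = _ := mul_comm _ _

set_option maxHeartbeats 1000000 in
theorem mass (c : ℝ) (hc : 0 < c) (z0 : ℕ) : ∃ (J N0 : ℕ) (c' : ℝ), 0 < c' ∧ ∀ N q β k0 : ℕ, N0 ≤ N → 1 ≤ q →
    q ^ 16 ≤ N → β ≤ q → β.Coprime q → 2 * Real.log (q * N) ≤ k0 → (k0 : ℝ) ≤ 2 * Real.log (q * N) + 2 →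
    c * N * ∏ p ∈ (Pz N).filter (fun p => z0 < p ∧ ¬ p ∣ q), (1 - 1 / (p : ℝ)) ≤
      (((Icc 1 N).filter (fun n => (q * n + β).Prime)).card : ℝ) →
    c' / (q.totient : ℝ) ≤ ∑ k ∈ Icc (k0 - J) (k0 + 2), wn q β k := by
  classical
  obtain ⟨cb, hcb, hBE⟩ := BE_q
  obtain ⟨C, hC, hBT⟩ := h_bt
  obtain ⟨κ, hκ⟩ : ∃ κ : ℝ, κ = c * cb := ⟨_, rfl⟩
  have hκ0 : 0 < κ := by rw [hκ]; positivity
  obtain ⟨N1, hN13, hroot⟩ := Pool.Agent.H92.I.root_le (κ / 4) (by positivity)
  obtain ⟨E, hE⟩ : ∃ E : ℕ, E = ⌈16 * C / κ⌉₊ + 1 := ⟨_, rfl⟩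
  have hE1 : 1 ≤ E := by omega
  have hEr : (1 : ℝ) ≤ E := by exact_mod_cast hE1
  have hEC : 16 * C / κ ≤ E := by
    have h1 : 16 * C / κ ≤ (⌈16 * C / κ⌉₊ : ℝ) := Nat.le_ceil _
    rw [hE]; push_cast; linarith
  refine ⟨⌈4 + 2 * Real.log E⌉₊, N1 + (2 * E + 32) ^ 2 + 100, κ / 128, by positivity, ?_⟩
  intro N q β k0 hN hq hqN hβ hcop hk1 hk2 hcnt
  have hN100 : 100 ≤ N := by omega
  have hNr : (100 : ℝ) ≤ N := by exact_mod_cast hN100
  have hN0 : (0 : ℝ) < N := by linarith
  have hNE : (2 * E + 32) ^ 2 ≤ N := by omega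
  have hqr : (1 : ℝ) ≤ q := by exact_mod_cast hq
  have hq0 : (0 : ℝ) < q := by linarith
  have hφ0 : (0 : ℝ) < q.totient := by exact_mod_cast Nat.totient_pos.2 hq
  have hφq : (q.totient : ℝ) ≤ q := by exact_mod_cast Nat.totient_le q
  have hqN1 : q ≤ N := by
    calc q = q ^ 1 := (pow_one _).symm
      _ ≤ q ^ 16 := Nat.pow_le_pow_right hq (by norm_num)
      _ ≤ N := hqN
  have hlN : 0 < Real.log N := Real.log_pos (by linarith)
  obtain ⟨S, hS⟩ : ∃ S : Finset ℕ, S = (Icc 1 N).filter (fun n => (q * n + β).Prime) := ⟨_, rfl⟩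
  rw [← hS] at hcnt
  obtain ⟨T, hT⟩ : ∃ T : ℝ, T = (q : ℝ) * N / (q.totient * Real.log N) := ⟨_, rfl⟩
  have hT0 : 0 < T := by rw [hT]; positivity
  have hS1 : κ * T ≤ S.card := by
    refine le_trans ?_ hcnt
    have h1 := hBE z0 N q (by omega) (by omega) hqN1
    have e : κ * T = c * N * (cb * ((q : ℝ) / q.totient / Real.log N)) := by
      rw [hκ, hT]; field_simp
    rw [e]
    exact mul_le_mul_of_nonneg_left h1 (by positivity)
  have hNT : (N : ℝ) / Real.log N ≤ T := by
    rw [hT, div_le_div_iff₀ hlN (by positivity)]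
    calc (N : ℝ) * (q.totient * Real.log N) ≤ N * (q * Real.log N) := by gcongr
      _ = _ := by ring
  -- the small ones
  obtain ⟨nE, hnE⟩ : ∃ nE : ℕ, nE = N / E := ⟨_, rfl⟩
  have hnEr : (nE : ℝ) ≤ N / E := by rw [hnE]; exact Nat.cast_div_le
  have hnElow : 32 ≤ nE ∧ q ^ 8 ≤ nE := by
    have h1 : (2 * E + 32) * (2 * E + 32) ≤ N := by rw [← sq]; exact hNE
    constructor
    · rw [hnE, Nat.le_div_iff_mul_le (by omega)]
      nlinarith
    · rw [hnE, Nat.le_div_iff_mul_le (by omega)]
      by_contra hcon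
      push Not at hcon
      have h2 : q ^ 8 * q ^ 8 ≤ N := by rw [← pow_add]; exact hqN
      have h3 : N * N < (q ^ 8 * E) * (q ^ 8 * E) := Nat.mul_self_lt_mul_self hcon
      have h4 : (q ^ 8 * E) * (q ^ 8 * E) = (q ^ 8 * q ^ 8) * (E * E) := by ring
      rw [h4] at h3
      have h5 : (q ^ 8 * q ^ 8) * (E * E) ≤ N * N := Nat.mul_le_mul h2 (by nlinarith)
      omega
  have hsm : ((S.filter (fun n => n ≤ nE)).card : ℝ) ≤ κ / 2 * T := by
    have h1 : (S.filter (fun n => n ≤ nE)).card ≤ ((S.filter (fun n => n ≤ nE)).filter (fun n => N < n * n)).card +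
        Nat.sqrt N := by
      have h2 : S.filter (fun n => n ≤ nE) ⊆ ((S.filter (fun n => n ≤ nE)).filter (fun n => N < n * n)) ∪
          Icc 1 (Nat.sqrt N) := by
        intro n hn
        rw [mem_union, mem_filter, mem_Icc]
        by_cases h3 : N < n * n
        · exact Or.inl ⟨hn, h3⟩
        · right
          rw [mem_filter, hS, mem_filter, mem_Icc] at hn
          exact ⟨hn.1.1.1, Nat.le_sqrt.2 (not_lt.1 h3)⟩
      have h3 := (card_le_card h2).trans (card_union_le _ _)
      rwa [Nat.card_Icc, Nat.add_sub_cancel] at h3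
    have h2 : (Nat.sqrt N : ℝ) ≤ κ / 4 * T := by
      refine Real.nat_sqrt_le_real_sqrt.trans ((hroot N (by omega)).trans ?_)
      exact mul_le_mul_of_nonneg_left hNT (by positivity)
    obtain ⟨X, hX⟩ : ∃ X : ℕ, X = q * nE + β := ⟨_, rfl⟩
    have hXn : nE ≤ X := by
      rw [hX]
      have := Nat.le_mul_of_pos_left nE (show 0 < q by omega)
      omega
    have h3 := hBT q β X (by omega) hq (hnElow.2.trans hXn) hcop
    obtain ⟨F, hF⟩ : ∃ F : Finset ℕ, F = (S.filter (fun n => n ≤ nE)).filter (fun n => N < n * n) := ⟨_, rfl⟩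
    rw [← hF] at h1
    have h4 : (F.card : ℝ) * (1 / 2 * Real.log N) ≤
        ∑ n ∈ (Icc 1 X).filter (fun n => n ≡ β [MOD q]), ArithmeticFunction.vonMangoldt n := by
      have h5 : F.image (fun n => q * n + β) ⊆ (Icc 1 X).filter (fun n => n ≡ β [MOD q]) := by
        intro P hP
        rw [mem_image] at hP
        obtain ⟨n, hn, rfl⟩ := hP
        rw [hF, mem_filter, mem_filter, hS, mem_filter, mem_Icc] at hn
        rw [mem_filter, mem_Icc]
        refine ⟨⟨hn.1.1.2.one_lt.le, ?_⟩, ?_⟩
        · rw [hX]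
          have := Nat.mul_le_mul_left q hn.1.2
          omega
        · have h6 : q * n ≡ 0 [MOD q] := Nat.modEq_zero_iff_dvd.2 (dvd_mul_right _ _)
          have := h6.add_right β
          rwa [zero_add] at this
      have h6 : Function.Injective (fun n : ℕ => q * n + β) := by
        intro n n' h
        simp only [Nat.add_right_cancel_iff] at h
        exact Nat.eq_of_mul_eq_mul_left (by omega) h
      calc (F.card : ℝ) * (1 / 2 * Real.log N) = ∑ _n ∈ F, (1 / 2 * Real.log N) := by
            rw [sum_const, nsmul_eq_mul]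
        _ ≤ ∑ n ∈ F, ArithmeticFunction.vonMangoldt (q * n + β) := by
            apply sum_le_sum
            intro n hn
            rw [hF, mem_filter, mem_filter, hS, mem_filter, mem_Icc] at hn
            rw [ArithmeticFunction.vonMangoldt_apply_prime hn.1.1.2]
            have h7 : (N : ℝ) ≤ (n : ℝ) * n := by exact_mod_cast hn.2.le
            have hn1 : (1 : ℝ) ≤ n := by exact_mod_cast hn.1.1.1.1
            have h8 : Real.log N ≤ 2 * Real.log n := by
              have := Real.log_le_log hN0 h7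
              rw [Real.log_mul (by linarith) (by linarith)] at this
              linarith
            have h9 : Real.log n ≤ Real.log ((q * n + β : ℕ) : ℝ) := by
              apply Real.log_le_log (by linarith)
              have : n ≤ q * n + β := by
                have := Nat.le_mul_of_pos_left n (show 0 < q by omega)
                omega
              exact_mod_cast this
            linarith
        _ = ∑ P ∈ F.image (fun n => q * n + β), ArithmeticFunction.vonMangoldt P := by
            rw [sum_image]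
            intro n _ n' _ h
            exact h6 h
        _ ≤ _ := sum_le_sum_of_subset_of_nonneg h5 fun _ _ _ => ArithmeticFunction.vonMangoldt_nonneg
    have h5 : (X : ℝ) ≤ 2 * (q * N / E) := by
      rw [hX]
      push_cast
      have h6 : (q : ℝ) * nE ≤ q * (N / E) := mul_le_mul_of_nonneg_left hnEr hq0.le
      have h7 : (β : ℝ) ≤ q := by exact_mod_cast hβ
      have h8 : (1 : ℝ) ≤ N / E := by
        refine le_trans ?_ hnEr
        exact_mod_cast (by omega : 1 ≤ nE)
      have h9 : (q : ℝ) * 1 ≤ q * (N / E) := mul_le_mul_of_nonneg_left h8 hq0.le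
      have e : (q : ℝ) * N / E = q * (N / E) := by ring
      rw [e]
      linarith
    have h6 : (F.card : ℝ) * (1 / 2 * Real.log N) ≤ κ / 8 * T * Real.log N := by
      refine (h4.trans h3).trans ?_
      calc C * X / q.totient ≤ C * (2 * (q * N / E)) / q.totient := by gcongr
        _ = (2 * C / E) * (T * Real.log N) := by rw [hT]; field_simp
        _ ≤ κ / 8 * (T * Real.log N) := by
            apply mul_le_mul_of_nonneg_right _ (by positivity)
            rw [div_le_iff₀ (by linarith)]
            rw [div_le_iff₀ hκ0] at hEC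
            linarith
        _ = _ := by ring
    have h7 : (F.card : ℝ) ≤ κ / 4 * T := by
      have h8 : (F.card : ℝ) * Real.log N ≤ κ / 4 * T * Real.log N := by linarith
      exact le_of_mul_le_mul_right h8 hlN
    have h8 : ((S.filter (fun n => n ≤ nE)).card : ℝ) ≤ F.card + Nat.sqrt N := by exact_mod_cast h1
    linarith
  -- the large ones
  obtain ⟨S', hS'⟩ : ∃ S' : Finset ℕ, S' = S.filter (fun n => ¬ n ≤ nE) := ⟨_, rfl⟩
  have hS'c : κ / 2 * T ≤ S'.card := by
    have h1 : (S.filter (fun n => n ≤ nE)).card + S'.card = S.card := by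
      rw [hS']; exact card_filter_add_card_filter_not _
    have h2 : ((S.filter (fun n => n ≤ nE)).card : ℝ) + S'.card = S.card := by exact_mod_cast h1
    linarith
  have hS'm : ∀ n ∈ S', 1 ≤ n ∧ n ≤ N ∧ (q * n + β).Prime ∧ (N : ℝ) / E < n := by
    intro n hn
    rw [hS', mem_filter, hS, mem_filter, mem_Icc] at hn
    refine ⟨hn.1.1.1, hn.1.1.2, hn.1.2, ?_⟩
    have h1 : N / E < n := by rw [← hnE]; exact not_le.1 hn.2
    rw [Nat.div_lt_iff_lt_mul (by omega)] at h1
    rw [div_lt_iff₀ (by linarith)]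
    exact_mod_cast h1
  have hqN2 : 0 < Real.log (q * N) := by
    apply Real.log_pos
    nlinarith
  have hwin : ∀ n ∈ S', kw (q * n + β) ∈ Icc (k0 - ⌈4 + 2 * Real.log E⌉₊) (k0 + 2) := by
    intro n hn
    obtain ⟨g1, g2, g3, g4⟩ := hS'm n hn
    have hP32 : 3 ≤ q * n + β := by
      have h1 : nE < n := by
        rw [hS', mem_filter] at hn; exact not_le.1 hn.2
      have := Nat.le_mul_of_pos_left n (show 0 < q by omega)
      omega
    obtain ⟨k1, k2, _, _⟩ := kw_facts hP32
    have hPr : (0 : ℝ) < ((q * n + β : ℕ) : ℝ) := by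
      exact_mod_cast (by omega : 0 < q * n + β)
    have h1 : Real.log ((q * n + β : ℕ) : ℝ) ≤ Real.log (q * N) + 1 := by
      have h2 : ((q * n + β : ℕ) : ℝ) ≤ 2 * (q * N) := by
        have h3 : q * n + β ≤ 2 * (q * N) := by
          have := Nat.mul_le_mul_left q g2
          have h4 : q ≤ q * N := Nat.le_mul_of_pos_right q (by omega)
          omega
        exact_mod_cast h3
      have h3 := Real.log_le_log hPr h2
      rw [Real.log_mul (by norm_num) (by positivity)] at h3
      have := Real.log_two_lt_d9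
      linarith
    have h2 : Real.log (q * N) - Real.log E ≤ Real.log ((q * n + β : ℕ) : ℝ) := by
      rw [← Real.log_div (by positivity) (by linarith)]
      apply Real.log_le_log (by positivity)
      push_cast
      have h3 : (q : ℝ) * N / E ≤ q * n := by
        have e : (q : ℝ) * N / E = q * (N / E) := by ring
        rw [e]
        exact mul_le_mul_of_nonneg_left g4.le hq0.le
      have h4 : (0 : ℝ) ≤ β := Nat.cast_nonneg β
      linarith
    rw [mem_Icc]
    constructor
    · have h3 : (k0 : ℝ) ≤ kw (q * n + β) + ⌈4 + 2 * Real.log E⌉₊ := by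
        have h4 : 4 + 2 * Real.log E ≤ (⌈4 + 2 * Real.log E⌉₊ : ℝ) := Nat.le_ceil _
        linarith
      have h4 : k0 ≤ kw (q * n + β) + ⌈4 + 2 * Real.log E⌉₊ := by exact_mod_cast h3
      omega
    · have h3 : (kw (q * n + β) : ℝ) ≤ k0 + 2 := by linarith
      exact_mod_cast h3
  have hfib : S'.card = ∑ k ∈ Icc (k0 - ⌈4 + 2 * Real.log E⌉₊) (k0 + 2),
      (S'.filter (fun n => kw (q * n + β) = k)).card :=
    card_eq_sum_card_fiberwise hwin
  have hone : ∀ k ∈ Icc (k0 - ⌈4 + 2 * Real.log E⌉₊) (k0 + 2),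
      Real.log N / (64 * (q * N)) * ((S'.filter (fun n => kw (q * n + β) = k)).card : ℝ) ≤ wn q β k := by
    intro k hk
    obtain ⟨G, hG⟩ : ∃ G : Finset ℕ, G = S'.filter (fun n => kw (q * n + β) = k) := ⟨_, rfl⟩
    rw [← hG]
    have hY0 : 0 < Real.exp ((k : ℝ) / 2) := Real.exp_pos _
    have hexp : Real.exp ((k : ℝ) / 2) ≤ 8 * (q * N) := by
      have h1 : (k : ℝ) ≤ k0 + 2 := by exact_mod_cast (mem_Icc.1 hk).2
      have h2 : (k : ℝ) / 2 ≤ 2 + Real.log (q * N) := by linarith
      calc Real.exp ((k : ℝ) / 2) ≤ Real.exp (2 + Real.log (q * N)) := Real.exp_le_exp.2 h2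
        _ = Real.exp 2 * (q * N) := by rw [Real.exp_add, Real.exp_log (by positivity)]
        _ ≤ 8 * (q * N) := by
            apply mul_le_mul_of_nonneg_right _ (by positivity)
            have h3 : Real.exp 2 = Real.exp 1 * Real.exp 1 := by rw [← Real.exp_add]; norm_num
            have h4 := Real.exp_one_lt_d9
            have h5 := Real.exp_pos 1
            rw [h3]
            nlinarith
    have hpc : 1 / 8 * Real.log N * G.card ≤ pc (Real.exp ((k : ℝ) / 2)) q β := by
      unfold pc
      have h5 : G.image (fun n => q * n + β) ⊆ (Icc 1 ⌊3 * Real.exp ((k : ℝ) / 2)⌋₊).filter (fun n => n ≡ β [MOD q]) := by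
        intro P hP
        rw [mem_image] at hP
        obtain ⟨n, hn, rfl⟩ := hP
        rw [hG, mem_filter] at hn
        obtain ⟨g1, g2, g3, g4⟩ := hS'm n hn.1
        have hP32 : 3 ≤ q * n + β := by
          have h1 : nE < n := by
            have := hn.1
            rw [hS', mem_filter] at this; exact not_le.1 this.2
          have := Nat.le_mul_of_pos_left n (show 0 < q by omega)
          omega
        obtain ⟨_, _, _, k4⟩ := kw_facts hP32
        rw [hn.2] at k4
        rw [mem_filter, mem_Icc]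
        refine ⟨⟨g3.one_lt.le, Nat.le_floor k4⟩, ?_⟩
        have h6 : q * n ≡ 0 [MOD q] := Nat.modEq_zero_iff_dvd.2 (dvd_mul_right _ _)
        have := h6.add_right β
        rwa [zero_add] at this
      have h6 : Function.Injective (fun n : ℕ => q * n + β) := by
        intro n n' h
        simp only [Nat.add_right_cancel_iff] at h
        exact Nat.eq_of_mul_eq_mul_left (by omega) h
      calc 1 / 8 * Real.log N * G.card = ∑ _n ∈ G, (1 / 8 * Real.log N) := by
            rw [sum_const, nsmul_eq_mul, mul_comm]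
        _ ≤ ∑ n ∈ G, Phi (((q * n + β : ℕ) : ℝ) / Real.exp ((k : ℝ) / 2)) *
              ArithmeticFunction.vonMangoldt (q * n + β) := by
            apply sum_le_sum
            intro n hn
            rw [hG, mem_filter] at hn
            obtain ⟨g1, g2, g3, g4⟩ := hS'm n hn.1
            have h1 : nE < n := by
              have := hn.1
              rw [hS', mem_filter] at this; exact not_le.1 this.2
            have hP32 : 3 ≤ q * n + β := by
              have := Nat.le_mul_of_pos_left n (show 0 < q by omega)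
              omega
            obtain ⟨_, _, k3, _⟩ := kw_facts hP32
            rw [hn.2] at k3
            rw [ArithmeticFunction.vonMangoldt_apply_prime g3]
            have hn1 : (1 : ℝ) ≤ n := by exact_mod_cast g1
            have h7 : (N : ℝ) ≤ (n : ℝ) * n := by
              have h8 : (E : ℝ) ≤ N / E := by
                rw [le_div_iff₀ (by linarith)]
                have h9 : E * E ≤ N := by nlinarith
                exact_mod_cast h9
              have h10 : (E : ℝ) ≤ n := h8.trans g4.le
              have h11 : (N : ℝ) ≤ n * E := by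
                rw [div_lt_iff₀ (by linarith)] at g4
                exact g4.le
              calc (N : ℝ) ≤ n * E := h11
                _ ≤ n * n := mul_le_mul_of_nonneg_left h10 (by linarith)
            have h8 : Real.log N ≤ 2 * Real.log n := by
              have := Real.log_le_log hN0 h7
              rw [Real.log_mul (by linarith) (by linarith)] at this
              linarith
            have h9 : Real.log n ≤ Real.log ((q * n + β : ℕ) : ℝ) := by
              apply Real.log_le_log (by linarith)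
              have : n ≤ q * n + β := by
                have := Nat.le_mul_of_pos_left n (show 0 < q by omega)
                omega
              exact_mod_cast this
            calc 1 / 8 * Real.log N = 1 / 4 * (1 / 2 * Real.log N) := by ring
              _ ≤ _ := mul_le_mul k3 (by linarith) (by positivity) (WUP.Phi_nonneg _)
        _ = ∑ P ∈ G.image (fun n => q * n + β), Phi ((P : ℝ) / Real.exp ((k : ℝ) / 2)) *
              ArithmeticFunction.vonMangoldt P := by
            rw [sum_image]
            intro n _ n' _ h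
            exact h6 h
        _ ≤ _ := sum_le_sum_of_subset_of_nonneg h5 fun _ _ _ =>
            mul_nonneg (WUP.Phi_nonneg _) ArithmeticFunction.vonMangoldt_nonneg
    unfold wn
    rw [le_div_iff₀ hY0]
    calc Real.log N / (64 * (q * N)) * (G.card : ℝ) * Real.exp ((k : ℝ) / 2) ≤
          Real.log N / (64 * (q * N)) * (G.card : ℝ) * (8 * (q * N)) := by
          apply mul_le_mul_of_nonneg_left hexp
          positivity
      _ = 1 / 8 * Real.log N * G.card := by field_simp; ring
      _ ≤ _ := hpc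
  calc κ / 128 / (q.totient : ℝ) = Real.log N / (64 * (q * N)) * (κ / 2 * T) := by
        rw [hT]; field_simp; ring
    _ ≤ Real.log N / (64 * (q * N)) * (S'.card : ℝ) := mul_le_mul_of_nonneg_left hS'c (by positivity)
    _ = ∑ k ∈ Icc (k0 - ⌈4 + 2 * Real.log E⌉₊) (k0 + 2), Real.log N / (64 * (q * N)) *
          ((S'.filter (fun n => kw (q * n + β) = k)).card : ℝ) := by
        rw [hfib]
        push_cast
        rw [mul_sum]
    _ ≤ _ := sum_le_sum hone

end Pool.Agent.H92.T
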