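import Pool.Agent.H92.T.Mass

set_option autoImplicit false

/-! Many primes among forms with `χ (b i) = -1`, in the exceptional case. -/

namespace Pool.Agent.H92.T

open Finset Filter Topology
open Pool.Agent.H378R2 Pool.Agent.H262R3.Lk Pool.Agent.H262R2.UM Pool.Agent.H262R2.UP
open Pool.Agent.H92.G (Chr)

set_option maxHeartbeats 2000000 in
theorem minusM (m : ℕ) : ∃ (K E u A M0 : ℕ) (ϑ : ℝ), 1 ≤ K ∧ 1 ≤ E ∧ 1 ≤ u ∧ 0 < ϑ ∧ ∀ M : ℕ, M0 ≤ M →
    ∀ (f : ℕ) (χ : ℕ → ℝ), Chr f χ → ∀ a b : Fin K → ℕ, Adm a b → (∀ i, 0 < a i ∧ b i ≤ a i) →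
    Function.Injective (fun i => (a i, b i)) → (∀ i, a i ≤ M) → (∀ i, f ∣ a i ∧ χ (b i) = -1) →
    ∑ r ∈ (Ioc (M ^ (16 * E)) (M ^ (50 * u * E))).filter (fun r => r.Prime ∧ χ r = 1), 1 / (r : ℝ) ≤ ϑ →
    ∃ n : ℕ, (n : ℝ) ≤ 8 * (M : ℝ) ^ A ∧ m ≤ #((univ : Finset (Fin K)).filter (fun i => (a i * n + b i).Prime)) := by
  classical
  obtain ⟨u, s0, z0, ϑ, c, hu, hϑ, hc, hmin⟩ := Pool.Agent.H92.M.min_count
  obtain ⟨J, N0, c', hc', hmass⟩ := mass c hc z0
  obtain ⟨c5, hc5⟩ : ∃ c5 : ℝ, c5 = c' / (J + 3) := ⟨_, rfl⟩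
  have hJ0 : (0 : ℝ) < (J : ℝ) + 3 := by positivity
  have hc5p : 0 < c5 := by rw [hc5]; positivity
  obtain ⟨K0, A1, hst⟩ := stage2 c5 hc5p m
  obtain ⟨E, hE⟩ : ∃ E : ℕ, E = A1 + 2 := ⟨_, rfl⟩
  obtain ⟨A2, hA2⟩ : ∃ A2 : ℕ, A2 = 50 * u * E + 2 := ⟨_, rfl⟩
  obtain ⟨M1, hst2⟩ := hst A2
  obtain ⟨M2, hM2⟩ := eventually_atTop.1 (wM_facts A2)
  refine ⟨(J + 3) * (K0 + 1), E, u, 4 * A2, M1 + M2 + s0 + N0 + 3 ^ J + 8, ϑ, ?_, by omega, hu, hϑ, ?_⟩
  · exact Nat.mul_pos (by omega) (by omega)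
  intro M hM f χ h a b hadm hab hinj haM hf hsum
  have h3J : 1 ≤ 3 ^ J := Nat.one_le_pow _ _ (by norm_num)
  have hM8 : 8 ≤ M := by omega
  have hMr : (8 : ℝ) ≤ M := by exact_mod_cast hM8
  have hMp : (0 : ℝ) < M := by linarith
  have hM1 : (1 : ℝ) ≤ M := by linarith
  obtain ⟨s, hs⟩ : ∃ s : ℕ, s = M ^ E := ⟨_, rfl⟩
  have hMs : M ≤ s := by rw [hs]; exact Nat.le_self_pow (by omega) M
  have hM2s : M * M ≤ s := by
    rw [hs, ← sq]
    exact Nat.pow_le_pow_right (by omega) (by omega)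
  have hs16 : s ^ 16 = M ^ (16 * E) := by rw [hs, ← pow_mul]; congr 1; ring
  have hs50 : s ^ (50 * u) = M ^ (50 * u * E) := by rw [hs, ← pow_mul]; congr 1; ring
  obtain ⟨N, hN⟩ : ∃ N : ℕ, N = s ^ (50 * u) := ⟨_, rfl⟩
  have hNM : N = M ^ (50 * u * E) := by rw [hN, hs50]
  have huE : 100 ≤ 50 * u * E := by
    have h1 : 1 ≤ u := hu
    have h2 : 2 ≤ E := by omega
    nlinarith
  have huE2 : 50 * E ≤ 50 * u * E := by
    have h1 : 1 ≤ u := hu
    have h2 : 50 * 1 * E ≤ 50 * u * E := Nat.mul_le_mul_right _ (Nat.mul_le_mul_left _ h1)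
    omega
  have hsN : s ≤ N := by rw [hN]; exact Nat.le_self_pow (by omega) s
  have hNr : (N : ℝ) = (s : ℝ) ^ (50 * u) := by rw [hN]; push_cast; rfl
  have hNMr : (N : ℝ) = (M : ℝ) ^ (50 * u * E) := by rw [hNM]; push_cast; rfl
  obtain ⟨W, hW⟩ : ∃ W : ℕ, W = WT M ∅ := ⟨_, rfl⟩
  have hW0 : 0 < W := by rw [hW]; exact WT_pos M ∅
  have hWM : W ≤ M := by rw [hW]; exact WT_le M (by omega) ∅
  have hwM3 : 3 ≤ wM M := (hM2 M (by omega)).1
  have hW2 : 2 ≤ W := by
    have h1 : 2 ∣ W := by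
      rw [hW]
      unfold WT
      apply dvd_prod_of_mem (fun p => p)
      rw [Finset.mem_sdiff, mem_Pz]
      exact ⟨⟨by omega, Nat.prime_two⟩, by simp⟩
    exact Nat.le_of_dvd hW0 h1
  have hapos : ∀ i, 0 < a i := fun i => (hab i).1
  obtain ⟨a0', ha0'⟩ := crt_class hadm (Pz (wM M) \ ∅) (fun p hp => (mem_Pz.1 (Finset.mem_sdiff.1 hp).1).2)
  obtain ⟨a0, ha0⟩ : ∃ a0 : ℕ, a0 = a0' % W := ⟨_, rfl⟩
  have ha0W : a0 < W := by rw [ha0]; exact Nat.mod_lt _ hW0
  have ha0c : ∀ i, (a i * a0 + b i).Coprime W := by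
    intro i
    have h1 : a i * a0 + b i ≡ a i * a0' + b i [MOD W] := by
      rw [ha0]
      exact ((Nat.mod_modEq a0' W).mul_left (a i)).add_right (b i)
    have h2 := h1.gcd_eq
    rw [Nat.coprime_iff_gcd_eq_one, h2]
    have h3 := ha0' i
    rw [hW]
    exact h3
  have hcop : ∀ i, (a i * a0 + b i).Coprime (a i * W) := fun i =>
    coprime_self_mul (adm_coprime hadm i) (ha0c i)
  have hqM : ∀ i, a i * W ≤ M * M := fun i => Nat.mul_le_mul (haM i) hWM
  have hq1 : ∀ i, 1 ≤ a i * W := fun i => Nat.mul_pos (hapos i) hW0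
  have hq16 : ∀ i, (a i * W) ^ 16 ≤ N := fun i => by
    calc (a i * W) ^ 16 ≤ (M * M) ^ 16 := Nat.pow_le_pow_left (hqM i) 16
      _ = M ^ 32 := by ring
      _ ≤ M ^ (50 * u * E) := Nat.pow_le_pow_right (by omega) (by omega)
      _ = N := hNM.symm
  have hβq : ∀ i, a i * a0 + b i ≤ a i * W := by
    intro i
    have h1 : a i * (a0 + 1) ≤ a i * W := Nat.mul_le_mul_left _ ha0W
    have h2 := (hab i).2
    have h3 : a i * (a0 + 1) = a i * a0 + a i := by ring
    omega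
  have hβ1 : ∀ i, 1 ≤ a i * a0 + b i := by
    intro i
    by_contra hcon
    have h1 : a i * a0 + b i = 0 := by omega
    have h2 := hcop i
    rw [h1, Nat.coprime_zero_left] at h2
    have h3 : W ≤ a i * W := Nat.le_mul_of_pos_left W (hapos i)
    omega
  obtain ⟨l0, hl0⟩ : ∃ l0 : ℕ, l0 = ⌈2 * Real.log (N * W)⌉₊ := ⟨_, rfl⟩
  have hWr : (1 : ℝ) ≤ W := by exact_mod_cast hW0
  have hN8 : (8 : ℝ) ≤ N := by exact_mod_cast (by omega : 8 ≤ N)
  have hNW : (8 : ℝ) ≤ N * W := by nlinarith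
  have hlNW : 0 < Real.log (N * W) := Real.log_pos (by linarith)
  have hl01 : 2 * Real.log (N * W) ≤ l0 := by rw [hl0]; exact Nat.le_ceil _
  have hl02 : (l0 : ℝ) < 2 * Real.log (N * W) + 1 := by rw [hl0]; exact Nat.ceil_lt_add_one (by positivity)
  have hlogM : 0 < Real.log M := Real.log_pos (by linarith)
  have hJM : (J : ℝ) ≤ Real.log M := by
    have h1 : (3 : ℝ) ^ J ≤ M := by
      have : 3 ^ J ≤ M := by omega
      exact_mod_cast this
    have h2 : Real.log ((3 : ℝ) ^ J) ≤ Real.log M := Real.log_le_log (by positivity) h1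
    rw [Real.log_pow] at h2
    have h3 : 1 ≤ Real.log 3 := by
      rw [Real.le_log_iff_exp_le (by norm_num)]
      have := Real.exp_one_lt_d9
      linarith
    have h4 : (J : ℝ) * 1 ≤ J * Real.log 3 := mul_le_mul_of_nonneg_left h3 (Nat.cast_nonneg J)
    linarith
  have hlN : Real.log N = (50 * u * E : ℕ) * Real.log M := by rw [hNMr, Real.log_pow]
  have hlNM : (100 : ℝ) * Real.log M ≤ Real.log N := by
    rw [hlN]
    apply mul_le_mul_of_nonneg_right _ hlogM.le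
    exact_mod_cast huE
  have hlNW2 : Real.log (N * W) = Real.log N + Real.log W := Real.log_mul (by linarith) (by linarith)
  have hlW : 0 ≤ Real.log W := Real.log_nonneg hWr
  have hJl0 : J ≤ l0 := by
    have : (J : ℝ) ≤ l0 := by linarith
    exact_mod_cast this
  -- the window of every form
  have hwin : ∀ i, ∃ l ∈ Icc (l0 - J) (l0 + 2), c5 / ((a i * W).totient : ℝ) ≤
      wn (a i * W) (a i * a0 + b i) (l + sh (a i)) := by
    intro i
    have har : (1 : ℝ) ≤ a i := by exact_mod_cast hapos i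
    have hsh1 : 2 * Real.log (a i) ≤ sh (a i) := Nat.le_ceil _
    have hsh2 : (sh (a i) : ℝ) < 2 * Real.log (a i) + 1 := Nat.ceil_lt_add_one (by
      have := Real.log_nonneg har
      positivity)
    have hlq : Real.log (((a i * W : ℕ) : ℝ) * N) = Real.log (N * W) + Real.log (a i) := by
      push_cast
      rw [hlNW2, Real.log_mul (by positivity) (by positivity), Real.log_mul (by positivity) (by positivity)]
      ring
    have hcnt := hmin s (by omega) f χ h (a i * W) (a i * a0 + b i) (hq1 i) ((hqM i).trans hM2s) (hβ1 i) (by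
        have h1 := hβq i
        have h2 : a i * W ≤ a i * W * s ^ (50 * u) := Nat.le_mul_of_pos_right _ (Nat.pow_pos (by omega))
        omega) (hcop i) ((hf i).1.mul_right W) (by
        rw [← (hf i).2]
        apply h.per
        have h3 : a i * a0 ≡ 0 [MOD f] := Nat.modEq_zero_iff_dvd.2 ((hf i).1.mul_right a0)
        have := h3.add_right (b i)
        rwa [zero_add] at this) (by rw [hs16, hs50]; exact hsum)
    rw [← hN, ← hNr] at hcnt
    have h1 := hmass N (a i * W) (a i * a0 + b i) (l0 + sh (a i)) (by omega) (hq1 i) (hq16 i) (hβq i) (hcop i)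
      (by rw [hlq]; push_cast; linarith) (by rw [hlq]; push_cast; linarith) hcnt
    by_contra hcon
    push Not at hcon
    have hφ0 : (0 : ℝ) < ((a i * W).totient : ℝ) := by exact_mod_cast Nat.totient_pos.2 (hq1 i)
    have h2 : ∀ k ∈ Icc (l0 + sh (a i) - J) (l0 + sh (a i) + 2), wn (a i * W) (a i * a0 + b i) k <
        c5 / ((a i * W).totient : ℝ) := by
      intro k hk
      rw [mem_Icc] at hk
      have h3 := hcon (k - sh (a i)) (by rw [mem_Icc]; constructor <;> omega)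
      rwa [show k - sh (a i) + sh (a i) = k by omega] at h3
    have h3 : ∑ k ∈ Icc (l0 + sh (a i) - J) (l0 + sh (a i) + 2), wn (a i * W) (a i * a0 + b i) k <
        ∑ _k ∈ Icc (l0 + sh (a i) - J) (l0 + sh (a i) + 2), c5 / ((a i * W).totient : ℝ) := by
      apply sum_lt_sum_of_nonempty _ h2
      exact ⟨l0 + sh (a i), by rw [mem_Icc]; omega⟩
    rw [sum_const, Nat.card_Icc, nsmul_eq_mul] at h3
    have h4 : ((l0 + sh (a i) + 2 + 1 - (l0 + sh (a i) - J) : ℕ) : ℝ) = J + 3 := by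
      have : l0 + sh (a i) + 2 + 1 - (l0 + sh (a i) - J) = J + 3 := by omega
      rw [this]; push_cast; ring
    rw [h4, hc5] at h3
    have h5 : ((J : ℝ) + 3) * (c' / (J + 3) / ((a i * W).totient : ℝ)) = c' / ((a i * W).totient : ℝ) := by
      field_simp
    rw [h5] at h3
    linarith
  choose ll hll1 hll2 using hwin
  obtain ⟨l, hl, hlc⟩ := Finset.exists_le_card_fiber_of_mul_le_card_of_maps_to
    (s := (univ : Finset (Fin ((J + 3) * (K0 + 1))))) (t := Icc (l0 - J) (l0 + 2)) (f := ll) (n := K0 + 1)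
    (fun i _ => hll1 i) ⟨l0, by rw [mem_Icc]; omega⟩ (by
      rw [card_univ, Fintype.card_fin, Nat.card_Icc]
      apply Nat.mul_le_mul_right
      omega)
  obtain ⟨e, he, heI⟩ := sub_emb _ hlc
  rw [mem_Icc] at hl
  have hlr1 : (l0 : ℝ) - J ≤ l := by
    have : (l0 : ℝ) ≤ l + J := by exact_mod_cast (by omega : l0 ≤ l + J)
    linarith
  have hlr2 : (l : ℝ) ≤ l0 + 2 := by exact_mod_cast hl.2
  have hlX1 : (M : ℝ) ^ (4 * A1) ≤ Real.exp ((l : ℝ) / 2) := by
    have h1 : (M : ℝ) ^ (4 * A1) = Real.exp ((4 * A1 : ℕ) * Real.log M) := by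
      rw [← Real.rpow_natCast, Real.rpow_def_of_pos hMp]
      ring_nf
    rw [h1]
    apply Real.exp_le_exp.2
    have h2 : ((4 * A1 : ℕ) : ℝ) + 1 ≤ ((50 * u * E : ℕ) : ℝ) := by
      have : 4 * A1 + 1 ≤ 50 * u * E := by omega
      exact_mod_cast this
    have h3 : (((4 * A1 : ℕ) : ℝ) + 1) * Real.log M ≤ Real.log N := by
      rw [hlN]
      exact mul_le_mul_of_nonneg_right h2 hlogM.le
    linarith
  have hlX2 : Real.exp ((l : ℝ) / 2) ≤ (M : ℝ) ^ (4 * A2) := by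
    have h1 : (l : ℝ) / 2 ≤ Real.log (N * W) + 3 / 2 := by linarith
    have h2 : (M : ℝ) ^ (4 * A2) = Real.exp ((4 * A2 : ℕ) * Real.log M) := by
      rw [← Real.rpow_natCast, Real.rpow_def_of_pos hMp]
      ring_nf
    rw [h2]
    apply Real.exp_le_exp.2
    have h3 : Real.log W ≤ Real.log M := Real.log_le_log (by linarith) (by exact_mod_cast hWM)
    have h4 : (2 : ℝ) ≤ Real.log M := by
      have h5 : Real.log 8 ≤ Real.log M := Real.log_le_log (by norm_num) hMr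
      have h6 : Real.log 8 = 3 * Real.log 2 := by
        rw [show (8 : ℝ) = 2 ^ 3 by norm_num, Real.log_pow]; norm_num
      have := Real.log_two_gt_d9
      linarith
    have h5 : (l : ℝ) / 2 ≤ (((50 * u * E : ℕ) : ℝ) + 2) * Real.log M := by
      rw [hlNW2, hlN] at h1
      linarith
    have h6 : ((50 * u * E : ℕ) : ℝ) + 2 ≤ ((4 * A2 : ℕ) : ℝ) := by
      have : 50 * u * E + 2 ≤ 4 * A2 := by omega
      exact_mod_cast this
    exact h5.trans (mul_le_mul_of_nonneg_right h6 hlogM.le)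
  obtain ⟨n, hn, hm⟩ := hst2 M (by omega) 0 l a0 ∅ (fun j => a (e j)) (fun j => b (e j)) (by simp) (by simp) (by simp)
    (fun p hp => by
      obtain ⟨n, hn⟩ := hadm p hp
      exact ⟨n, fun j => hn (e j)⟩)
    (fun j => hab (e j)) (fun x y hxy => he (hinj hxy)) (fun j => haM (e j)) hlX1 hlX2
    (fun j => by rw [← hW]; exact hcop (e j))
    (fun j => by
      rw [← hW]
      have h1 := (mem_filter.1 (heI j)).2
      have h2 := hll2 (e j)
      rwa [h1] at h2)
  refine ⟨n, ?_, ?_⟩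
  · refine hn.trans ?_
    exact mul_le_mul_of_nonneg_left hlX2 (by norm_num)
  · refine hm.trans ?_
    have h1 : ((univ : Finset (Fin (K0 + 1))).filter (fun j => (a (e j) * n + b (e j)).Prime)).image e ⊆
        (univ : Finset (Fin ((J + 3) * (K0 + 1)))).filter (fun i => (a i * n + b i).Prime) := by
      intro i hi
      rw [mem_image] at hi
      obtain ⟨j, hj, rfl⟩ := hi
      rw [mem_filter] at hj ⊢
      exact ⟨mem_univ _, hj.2⟩
    have h2 := card_le_card h1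
    rwa [card_image_of_injective _ he] at h2

end Pool.Agent.H92.T
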